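import Pool.Agent.Lib.MP_5c0a0e_nt.Fam.Zero

/-! The algebraic conditions have no rational solution along the family. -/

namespace NahmFam

open NahmCE

lemma case_k (K β s D : ℚ) (h1 : 0 < β) (hd : 0 ≤ D)
    (e21 : D = 1/3 + 1/4 * β - 1/2 * s - s^2 - 4/3 * K - 4 * K * β)
    (e31 : (16 * K - 1) * (6 * s + 4 + 17 * β) = 0)
    (f20 : 4 + 15 * β + 6 * s - 3 * s * β + 6 * s^2 + 8 * s^3 - 16 * K - 60 * K * β - 8 * K * s
      + 48 * K * s * β = 0)
    (f30 : -22 - 219/2 * β - 33 * s + 112 * K + 556 * K * β + 168 * K * s - 64 * K^2 * β = 0) :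
    False := by
  rcases mul_eq_zero.1 e31 with h | h
  · obtain rfl : K = 1/16 := by linear_combination (1/16) * h
    obtain rfl : β = -(3 * s + 2)/10 := by linear_combination (-1/75) * f30
    have hs : 0 < -(s + 2/3) := by linarith
    nlinarith [mul_pos hs hs, mul_pos hs (mul_pos hs hs)]
  · obtain rfl : s = -(4 + 17 * β)/6 := by linear_combination (1/6) * h
    have h3 : β * ((4 * K - 1) * (K - 1)) = 0 := by linear_combination (-1/16) * f30
    rcases mul_eq_zero.1 ((mul_eq_zero.1 h3).resolve_left h1.ne') with h4 | h4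
    · obtain rfl : K = 1/4 := by linear_combination (1/4) * h4
      nlinarith [sq_nonneg β]
    · obtain rfl : K = 1 := by linear_combination h4
      nlinarith [sq_nonneg β]

theorem no_rational (k s d a0 a1 al : ℚ) (h1 : 0 < al^2) (h2 : al^2 < 1/4)
    (hR : ∀ t : ℚ, RH t 1 al 1 ≠ 0)
    (A1 : L1 a0 a1 al (mA k) = 0) (B1 : L1 a0 a1 al (mB k) = 0)
    (A2 : L2 a0 a1 al (pv0 s d) (pv1 k s d) (pv2 s) (mA k) = 0)
    (B2 : L2 a0 a1 al (pv0 s d) (pv1 k s d) (pv2 s) (mB k) = 0)
    (A3 : L3 a0 a1 al (pv0 s d) (pv1 k s d) (pv2 s) (mA k) = 0)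
    (B3 : L3 a0 a1 al (pv0 s d) (pv1 k s d) (pv2 s) (mB k) = 0)
    (A4 : L4 a0 a1 al (pv0 s d) (pv1 k s d) (pv2 s) (pg0 s d) (pg1 k s d) (pg2 s d) (pg3 k s d)
      (pg4 s) (mA k) = 0) : False := by
  simp only [L1, L2, L3, L4, mA, mB, pv0, pv1, pv2, pg0, pg1, pg2, pg3, pg4]
    at A1 B1 A2 B2 A3 B3 A4
  have hal : al ≠ 0 := by rintro rfl; norm_num at h1
  by_cases hk : k = 0
  · subst hk
    obtain ⟨l, rfl⟩ : ∃ l, a1 = l + al/2 := ⟨a1 - al/2, by ring⟩
    obtain ⟨t, rfl⟩ : ∃ t, s = t - 1/2 := ⟨s + 1/2, by ring⟩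
    obtain rfl : a0 = (l + al/2)/4 + al/16 := by linear_combination A1
    exact case_zero t l (d^2) al h1 h2 (hR t) (by linear_combination (768) * A2)
      (by linear_combination (512) * A3) (by linear_combination (5898240) * A4)
  · obtain rfl : a1 = al/4 := by
      have : k * (a1 - al/4) = 0 := by linear_combination B1
      linear_combination (mul_eq_zero.1 this).resolve_left hk
    obtain rfl : a0 = (1/8) * al + (-1/2) * k^2 * al := by linear_combination A1
    have e21 : d^2 = (1/3) + (1/4) * al^2 + (-1/2) * s + (-1) * s^2 + (-4/3) * k^2 + (-4) * k^2 * al^2 := by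
      have : k * (d^2 - ((1/3) + (1/4) * al^2 + (-1/2) * s + (-1) * s^2 + (-4/3) * k^2 + (-4) * k^2 * al^2)) = 0 := by linear_combination (16) * B2
      linear_combination (mul_eq_zero.1 this).resolve_left hk
    have e31 : (16*k^2 - 1) * (6*s + 4 + 17*al^2) = 0 := by
      have : (k * al) * ((16*k^2 - 1) * (6*s + 4 + 17*al^2)) = 0 := by
        linear_combination (-1536) * B3 + ((-36) * k * al) * e21
      exact (mul_eq_zero.1 this).resolve_left (mul_ne_zero hk hal)
    have f20 : 4 + 15 * al^2 + 6 * s + (-3) * s * al^2 + 6 * s^2 + 8 * s^3 + (-16) * k^2 + (-60) * k^2 * al^2 + (-8) * k^2 * s + 48 * k^2 * s * al^2 = 0 := by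
      linear_combination (384) * A2 + (6 + 12 * s) * e21
    have f30 : (-22) + (-219/2) * al^2 + (-33) * s + 112 * k^2 + 556 * k^2 * al^2 + 168 * k^2 * s + (-64) * k^4 * al^2 = 0 := by
      have : al * ((-22) + (-219/2) * al^2 + (-33) * s + 112 * k^2 + 556 * k^2 * al^2 + 168 * k^2 * s + (-64) * k^4 * al^2) = 0 := by
        linear_combination (3072) * A3 + ((-6) * al + (-48) * k^2 * al) * e21
      exact (mul_eq_zero.1 this).resolve_left hal
    exact case_k (k^2) (al^2) s (d^2) h1 (sq_nonneg d) (by linear_combination e21) e31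
      (by linear_combination f20) (by linear_combination f30)

end NahmFam
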