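import Pool.Agent.Lib.MP_5c0a0e_nt.Fam.Sum

/-! The asymptotic expansion of the Nahm sums of the family in the admissible region. -/

namespace NahmFam

open NahmCE MeasureTheory Filter Topology Set Complex Asymptotics

variable {lam : ℝ}

noncomputable def UU (lam : ℝ) (B : Fin 4 → ℝ) (c : ℝ) (z : ℂ) : ℂ :=
  (pa0 (mu lam) (ss B) (dd B) (B 1) c : ℝ) + (pa1 (mu lam) (kap B) (ss B) (B 1) : ℝ) * z
    + (mu lam - 1/2 : ℝ) * z^2

lemma II_eq {ε : ℝ} (hε : 0 < ε) {B : Fin 4 → ℝ} {b : ℝ} (h : Adm B b) (c y : ℝ) :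
    II lam ε B c b y * nrm ε = EE B b * F0 (B 0 + B 1/2 - b/2) b y
      * exp (ε * UU lam B c (-b/2 + y * I) + ε^2 * VV B (-b/2 + y * I)
        + ε^4 * ZZ B (-b/2 + y * I) + RR ε B b y) := by
  have r0 : 0 < (((B 0 + B 1/2 - b/2 : ℝ):ℂ) + y * I).re := by
    simpa only [add_re, ofReal_re, mul_re, I_re, ofReal_im, I_im, mul_zero, mul_one, sub_zero,
      add_zero] using h.h0
  have r1 : 0 < ((b:ℂ) - 2 * y * I).re := by simpa using h.h1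
  have hb := J_beta r0 r1
  have e : EE B b * F0 (B 0 + B 1/2 - b/2) b y
      = exp (J ((B 0 + B 1/2 - b/2 : ℝ) + y * I) + J (b - 2 * y * I)
        - J (((B 0 + B 1/2 - b/2 : ℝ) + y * I) + (b - 2 * y * I))
        + ((-((ss B + b) * Real.log 2) : ℝ) + y * Real.log 4 * I)) := by
    rw [exp_add, hb, exp_add, EE, F0, ofReal_exp]; ring
  rw [e, (Gt_aux hε h c y).2, nrm, ofReal_exp, ← exp_add, ← exp_add]
  congr 1
  have l4 : Real.log 4 = 2 * Real.log 2 := by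
    rw [show (4:ℝ) = 2^2 by norm_num, Real.log_pow]; norm_num
  simp only [RR, Rm, Lmain, UU, VV, ZZ, Real.log_mul two_ne_zero hε.ne', l4, b2, b3, b5, pa0, pa1,
    pv0, pv1, pv2, pg0, pg1, pg2, pg3, pg4, kap, ss, dd]
  push_cast
  ring

lemma UVZ_bound (hl : 2/3 ≤ lam) (B : Fin 4 → ℝ) (c b K0 : ℝ) :
    ∃ K : ℝ, 1 ≤ K ∧ K0 ≤ K ∧ ∀ y : ℝ,
    ‖UU lam B c (-b/2 + y * I)‖ ≤ K * (1 + |y|)^2 ∧
    (UU lam B c (-b/2 + y * I)).re ≤ K + y^2/2 ∧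
    ‖VV B (-b/2 + y * I)‖ ≤ K * (1 + |y|)^2 ∧ ‖ZZ B (-b/2 + y * I)‖ ≤ K * (1 + |y|)^4 := by
  obtain ⟨K1, h1⟩ := poly4_bound b (pa0 (mu lam) (ss B) (dd B) (B 1) c : ℝ)
    (pa1 (mu lam) (kap B) (ss B) (B 1) : ℝ) (mu lam - 1/2 : ℝ) 0 0
  obtain ⟨K2, hK2, hK0, h2⟩ := NahmCE.UVZ_bound B c b K0
  set K4 := pa0 (mu lam) (ss B) (dd B) (B 1) c - pa1 (mu lam) (kap B) (ss B) (B 1) * b/2
    + (mu lam - 1/2) * b^2/4 with hK4
  set K := K2 + |K1| + |K4| with hK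
  have := abs_nonneg K1; have := abs_nonneg K4
  refine ⟨K, by linarith, by linarith, fun y => ⟨(h1 y).1.trans ?_, ?_,
    (h2 y).2.2.1.trans ?_, (h2 y).2.2.2.trans ?_⟩⟩
  · exact mul_le_mul_of_nonneg_right (by linarith [le_abs_self K1]) (by positivity)
  · have : (UU lam B c (-b/2 + y * I)).re = K4 - (mu lam - 1/2) * y^2 := by
      simp [UU, hK4, pow_two]; ring
    rw [this]; nlinarith [le_abs_self K4, mul_nonneg (mu_pos hl).le (sq_nonneg y)]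
  · exact mul_le_mul_of_nonneg_right (by linarith) (by positivity)
  · exact mul_le_mul_of_nonneg_right (by linarith) (by positivity)

lemma core1 {K : ℝ} (hK : 1 ≤ K) : ∃ M : ℝ, 0 ≤ M ∧ ∀ ε Y : ℝ, 0 < ε → 1 ≤ Y → ε * Y^2 ≤ 1 →
    ∀ U V Z R : ℂ, ‖U‖ ≤ K * Y^2 → ‖V‖ ≤ K * Y^2 → ‖Z‖ ≤ K * Y^4 →
      ‖R‖ ≤ K * ε^5 * Y^7 →
      ‖exp (ε*U + ε^2*V + ε^4*Z + R) - Wp ε U V Z‖ ≤ M * ε^5 * Y^10 := by
  obtain ⟨M1, hM1, h1⟩ := bound5 Kt Kt_cont K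
  have hK0 : 0 ≤ K := by linarith
  refine ⟨M1, hM1, fun ε Y hε hY hw U V Z R hU hV hZ hR => ?_⟩
  have hY0 : (Y:ℂ) ≠ 0 := by exact_mod_cast (by linarith : Y ≠ 0)
  have hε0 : (ε:ℂ) ≠ 0 := by exact_mod_cast hε.ne'
  have e : (ε:ℂ)*U + ε^2*V + ε^4*Z + R = (ε * Y^2) * (U / Y^2) + (ε * Y^2)^2 * (V / Y^4)
      + (ε * Y^2)^4 * (Z / Y^8) + (ε * Y^2)^5 * (R / ε^5 / Y^10) := by field_simp
  have hn : ‖(ε:ℂ) * Y^2‖ = ε * Y^2 := by
    rw [norm_mul, norm_pow, norm_real, norm_real, Real.norm_eq_abs, Real.norm_eq_abs,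
      abs_of_pos hε, abs_of_pos (by linarith)]
  rw [e, Wp_scale _ _ _ _ _ hY0, Kt_eq, norm_mul, norm_pow, hn]
  have := h1 (ε * Y^2) (U / Y^2) (V / Y^4) (Z / Y^8) (R / ε^5 / Y^10) (by rw [hn]; linarith)
    (norm_div_le_of hK0 hY le_rfl hU) (norm_div_le_of hK0 hY (by norm_num) hV)
    (norm_div_le_of hK0 hY (by norm_num) hZ) (norm_div_le_of (m := 7) hK0 hY (by norm_num) (by
      rw [norm_div, norm_pow, norm_real, Real.norm_eq_abs, abs_of_pos hε,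
        div_le_iff₀ (by positivity)]
      linarith))
  calc _ ≤ (ε * Y^2)^5 * M1 := mul_le_mul_of_nonneg_left this (by positivity)
    _ = _ := by ring

lemma exp_mid2 {K ε Y ρ : ℝ} (hK : 0 ≤ K) (hε : 0 < ε) (hY : 1 ≤ Y) (h : ε^2 * Y^3 ≤ 1)
    {U V Z R : ℂ} (hU : U.re ≤ K + ρ) (hV : ‖V‖ ≤ K * Y^2) (hZ : ‖Z‖ ≤ K * Y^4)
    (hR : ‖R‖ ≤ K * ε^5 * Y^7) :
    ‖exp (ε*U + ε^2*V + ε^4*Z + R)‖ ≤ Real.exp (4 * K) * Real.exp (ε * ρ) := by
  have h1 := exp_mid (U := U - ρ) hK hε hY h (by simpa using hU) hV hZ hR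
  have e : (ε:ℂ)*U + ε^2*V + ε^4*Z + R
      = (ε*(U - ρ) + ε^2*V + ε^4*Z + R) + ((ε * ρ : ℝ) : ℂ) := by push_cast; ring
  rw [e, exp_add, norm_mul, norm_exp_ofReal]
  exact mul_le_mul_of_nonneg_right h1 (Real.exp_pos _).le

lemma gauss_far {μ : ℝ} (h0 : 0 < μ) (h1μ : μ ≤ 1) : ∃ M : ℝ, 1 ≤ M ∧ ∀ ε y : ℝ, 0 < ε → ε ≤ 1 →
    1 ≤ ε^2 * (1 + |y|)^3 → Real.exp (-(μ * ε) * y^2) ≤ M * ε^5 * (1 + y^2)⁻¹ := by
  refine ⟨1 + Real.exp 1 * ((19:ℕ).factorial * ((μ/2)⁻¹)^19),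
    le_add_of_nonneg_right (by positivity), fun ε y hε hε1 h => ?_⟩
  set Y := 1 + |y| with hY
  have hY1 : 1 ≤ Y := by linarith [abs_nonneg y]
  have h1 : Y^2 ≤ 2 * (1 + y^2) := by rw [hY, ← sq_abs y]; nlinarith [sq_nonneg (|y| - 1)]
  have h1' : 1 + y^2 ≤ Y^2 := by rw [hY, ← sq_abs y]; nlinarith [abs_nonneg y]
  set w := μ/2 * (ε * Y^2) with hw
  have hw0 : 0 < w := by positivity
  have h2 : Real.exp (-(μ * ε) * y^2) ≤ Real.exp 1 * (Real.exp w)⁻¹ := by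
    rw [← Real.exp_neg, ← Real.exp_add, Real.exp_le_exp, hw]
    have hme : μ * ε ≤ 1 := by nlinarith
    nlinarith [mul_le_mul_of_nonneg_left h1 (mul_pos h0 hε).le]
  have h3 : (Real.exp w)⁻¹ ≤ (19:ℕ).factorial / w^19 := by
    have := Real.pow_div_factorial_le_exp w hw0.le 19
    rw [← inv_div]
    exact inv_anti₀ (by positivity) this
  have h4 : 1 + y^2 ≤ ε^5 * (ε * Y^2)^19 := by
    have := one_le_pow₀ (n := 12) h
    calc 1 + y^2 ≤ 1 * Y^2 := by linarith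
      _ ≤ (ε^2 * Y^3)^12 * Y^2 := mul_le_mul_of_nonneg_right this (by positivity)
      _ = _ := by ring
  have h5 : Real.exp (-(μ * ε) * y^2)
      ≤ Real.exp 1 * ((19:ℕ).factorial * ((μ/2)⁻¹)^19) * ε^5 * (1 + y^2)⁻¹ := by
    refine h2.trans ?_
    rw [mul_assoc, mul_assoc]
    refine mul_le_mul_of_nonneg_left (h3.trans ?_) (Real.exp_pos _).le
    rw [div_eq_mul_inv, mul_assoc]
    refine mul_le_mul_of_nonneg_left ?_ (by positivity)
    rw [hw, mul_pow, mul_inv, ← inv_pow]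
    refine mul_le_mul_of_nonneg_left ?_ (by positivity)
    rw [← div_eq_mul_inv, inv_eq_one_div, div_le_div_iff₀ (by positivity) (by positivity)]
    linarith
  refine h5.trans ?_
  gcongr
  linarith

lemma mid_growth (hl : 2/3 ≤ lam) {n : ℕ} (hn : lam ≤ n) {M ε y : ℝ} (hM : 1 ≤ M) (hε : 0 < ε)
    (hw : 1 ≤ ε * (1 + |y|)^2)
    (h : M * ε^5 * (1 + y^2)⁻¹ < Real.exp (-(mu lam * ε) * y^2)) :
    Real.exp (ε * (y^2/2)) ≤ (1 + |y|)^(12 * n) := by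
  set Y := 1 + |y| with hY
  have h1' : 1 + y^2 ≤ Y^2 := by rw [hY, ← sq_abs y]; nlinarith [abs_nonneg y]
  have a3 : 1 ≤ ε^5 * Y^10 := by
    have := one_le_pow₀ (n := 5) hw
    nlinarith
  have hp : 0 < 1 + y^2 := by positivity
  have h2 : Real.exp (mu lam * ε * y^2) ≤ Y^12 := by
    rw [neg_mul, Real.exp_neg] at h
    have hE := Real.exp_pos (mu lam * ε * y^2)
    have h3 : ε^5 * (1 + y^2)⁻¹ ≤ (Real.exp (mu lam * ε * y^2))⁻¹ := by
      refine le_trans ?_ h.le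
      rw [mul_assoc]
      exact le_mul_of_one_le_left (by positivity) hM
    rw [← div_eq_mul_inv, inv_eq_one_div, div_le_div_iff₀ hp hE] at h3
    calc _ ≤ (ε^5 * Y^10) * Real.exp (mu lam * ε * y^2) := le_mul_of_one_le_left hE.le a3
      _ = (ε^5 * Real.exp (mu lam * ε * y^2)) * Y^10 := by ring
      _ ≤ Y^2 * Y^10 := mul_le_mul_of_nonneg_right (by linarith) (by positivity)
      _ = _ := by ring
  rw [pow_mul]
  refine le_trans ?_ (pow_le_pow_left₀ (Real.exp_pos _).le h2 n)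
  rw [← Real.exp_nat_mul, Real.exp_le_exp]
  have h4 : 0 ≤ mu lam * ε * y^2 := by have := mu_pos hl; positivity
  calc ε * (y^2/2) = lam * (mu lam * ε * y^2) := by
        linear_combination (-(ε * y^2)) * mu_mul hl
    _ ≤ _ := mul_le_mul_of_nonneg_right hn h4

lemma pointwise (hl : 2/3 ≤ lam) {B : Fin 4 → ℝ} {b : ℝ} (h : Adm B b) (c : ℝ) :
    ∃ (M : ℝ) (m : ℕ), ∀ᶠ ε : ℝ in 𝓝[>] 0,
    ∀ y : ℝ, ‖II lam ε B c b y * nrm ε - EE B b * (Wp ε (UU lam B c (-b/2 + y * I))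
      (VV B (-b/2 + y * I)) (ZZ B (-b/2 + y * I)) * F0 (B 0 + B 1/2 - b/2) b y)‖
      ≤ M * ε^5 * (‖F0 (B 0 + B 1/2 - b/2) b y‖ * (1 + |y|)^m + (1 + y^2)⁻¹) := by
  obtain ⟨K0, hR⟩ := RR_bound h
  obtain ⟨K, hK1, hK0, hU⟩ := UVZ_bound hl B c b K0
  obtain ⟨M1, hM1, h1⟩ := core1 hK1
  obtain ⟨M2, hM2, h2⟩ := Wp_far hK1
  obtain ⟨M3, hM3, h3⟩ := gauss_far (mu_pos hl) (mu_le hl)
  obtain ⟨n, hn⟩ := exists_nat_ge lam
  set a := B 0 + B 1/2 - b/2 with ha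
  set N := ‖EE B b * F0 a b 0‖ * Real.exp (4 * K) with hN
  have hN0 : 0 ≤ N := by positivity
  set E4 := Real.exp (4 * K) with hE4
  have hE0 : 0 ≤ E4 := (Real.exp_pos _).le
  refine ⟨‖EE B b‖ * (M1 + M2 + E4) + N * M3, 10 + 12 * n, ?_⟩
  filter_upwards [hR, self_mem_nhdsWithin, nhdsWithin_le_nhds (eventually_le_nhds one_pos)]
    with ε hR hε hε1 y
  have hε : 0 < ε := hε
  have hY : ∀ y : ℝ, 1 ≤ 1 + |y| := fun y => by linarith [abs_nonneg y]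
  have hR' : ∀ y : ℝ, ‖RR ε B b y‖ ≤ K * ε^5 * (1 + |y|)^7 := fun y => (hR y).trans (by gcongr)
  have hG : 1 ≤ (1 + |y|)^(12 * n) := one_le_pow₀ (hY y)
  have q3 := norm_nonneg (EE B b)
  have hM30 : 0 ≤ M3 := by linarith
  have fin : ∀ X T S : ℝ, 0 ≤ T → T ≤ M1 + M2 + E4 → 0 ≤ S → S ≤ N * M3 →
      X ≤ ‖EE B b‖ * ‖F0 a b y‖ * (T * ε^5 * (1 + |y|)^10 * (1 + |y|)^(12 * n))
        + S * (ε^5 * (1 + y^2)⁻¹) →
      X ≤ (‖EE B b‖ * (M1 + M2 + E4) + N * M3) * ε^5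
        * (‖F0 a b y‖ * (1 + |y|)^(10 + 12 * n) + (1 + y^2)⁻¹) := by
    intro X T S hT0 hT hS0 hS hX
    refine hX.trans ?_
    have q1 : 0 ≤ ε^5 * (‖F0 a b y‖ * (1 + |y|)^(10 + 12 * n)) := by positivity
    have q2 : 0 ≤ ε^5 * (1 + y^2)⁻¹ := by positivity
    have e1 : ‖EE B b‖ * ‖F0 a b y‖ * (T * ε^5 * (1 + |y|)^10 * (1 + |y|)^(12 * n))
        = ‖EE B b‖ * T * (ε^5 * (‖F0 a b y‖ * (1 + |y|)^(10 + 12 * n))) := by
      rw [pow_add]; ring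
    have b1 : ‖EE B b‖ * T ≤ ‖EE B b‖ * (M1 + M2 + E4) + N * M3 :=
      (mul_le_mul_of_nonneg_left hT q3).trans (le_add_of_nonneg_right (by positivity))
    have b2 : S ≤ ‖EE B b‖ * (M1 + M2 + E4) + N * M3 :=
      hS.trans (le_add_of_nonneg_left (by positivity))
    rw [e1, mul_assoc _ (ε^5), mul_add (ε^5), mul_add]
    exact add_le_add (mul_le_mul_of_nonneg_right b1 q1) (mul_le_mul_of_nonneg_right b2 q2)
  have hp : 0 ≤ ε^5 * (1 + |y|)^10 := by positivity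
  by_cases hw : ε * (1 + |y|)^2 ≤ 1
  · have := h1 ε _ hε (hY y) hw _ _ _ _ (hU y).1 (hU y).2.2.1 (hU y).2.2.2 (hR' y)
    refine fin _ M1 0 hM1 (by linarith) le_rfl (by positivity) ?_
    rw [II_eq hε h, ← ha, mul_comm (Wp _ _ _ _), ← mul_assoc, ← mul_sub, norm_mul, norm_mul,
      zero_mul, add_zero]
    exact mul_le_mul_of_nonneg_left (this.trans (le_mul_of_one_le_right (by positivity) hG))
      (by positivity)
  push Not at hw
  have a1 := h2 ε _ (hY y) hw.le _ _ _ (hU y).1 (hU y).2.2.1 (hU y).2.2.2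
  by_cases hy : Real.exp (-(mu lam * ε) * y^2) ≤ M3 * ε^5 * (1 + y^2)⁻¹
  · have a2 : ‖II lam ε B c b 0 * nrm ε‖ ≤ N := by
      rw [II_eq hε h, ← ha, norm_mul]
      refine mul_le_mul_of_nonneg_left (exp_mid (by linarith) hε (hY 0) ?_ ?_
        (hU 0).2.2.1 (hU 0).2.2.2 (hR' 0)) (norm_nonneg _)
      · simp only [abs_zero, add_zero, one_pow, mul_one]; nlinarith
      · have := (hU 0).2.1
        rwa [show ((0:ℝ))^2/2 = 0 by norm_num, add_zero] at this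
    have a3 : ‖II lam ε B c b y * nrm ε‖ ≤ N * (M3 * ε^5 * (1 + y^2)⁻¹) := by
      rw [norm_mul] at a2 ⊢
      calc _ ≤ ‖II lam ε B c b 0‖ * Real.exp (-(mu lam * ε) * y^2) * ‖(nrm ε : ℂ)‖ :=
            mul_le_mul_of_nonneg_right (II_bound hε h c y) (norm_nonneg _)
        _ = ‖II lam ε B c b 0‖ * ‖(nrm ε : ℂ)‖ * Real.exp (-(mu lam * ε) * y^2) := by ring
        _ ≤ _ := mul_le_mul a2 hy (by positivity) hN0
    have a4 : ‖EE B b * (Wp ε (UU lam B c (-b/2 + y * I)) (VV B (-b/2 + y * I))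
        (ZZ B (-b/2 + y * I)) * F0 a b y)‖
        ≤ ‖EE B b‖ * ‖F0 a b y‖ * (M2 * ε^5 * (1 + |y|)^10 * (1 + |y|)^(12 * n)) := by
      rw [norm_mul, norm_mul, mul_comm _ ‖F0 a b y‖, ← mul_assoc]
      exact mul_le_mul_of_nonneg_left (a1.trans (le_mul_of_one_le_right (by positivity) hG))
        (by positivity)
    refine fin _ M2 (N * M3) hM2 (by linarith) (by positivity) le_rfl ?_
    refine (norm_sub_le_of_le a3 a4).trans (le_of_eq (by ring))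
  · push Not at hy
    have hy2 : ε^2 * (1 + |y|)^3 ≤ 1 := by
      by_contra h5
      exact absurd (h3 ε y hε hε1 (not_le.1 h5).le) (not_le.2 hy)
    have g1 := mid_growth hl hn hM3 hε hw.le hy
    have g2 := exp_mid2 (by linarith) hε (hY y) hy2 (hU y).2.1 (hU y).2.2.1 (hU y).2.2.2 (hR' y)
    have a3 : 1 ≤ ε^5 * (1 + |y|)^10 := by
      have := one_le_pow₀ (n := 5) hw.le
      nlinarith
    refine fin _ (M2 + E4) 0 (by positivity) (by linarith) le_rfl (by positivity) ?_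
    rw [II_eq hε h, ← ha, mul_comm (Wp _ _ _ _), ← mul_assoc, ← mul_sub, norm_mul, norm_mul,
      zero_mul, add_zero]
    refine mul_le_mul_of_nonneg_left ((norm_sub_le_of_le g2 a1).trans ?_) (by positivity)
    have g3 : E4 * Real.exp (ε * (y^2/2))
        ≤ E4 * (ε^5 * (1 + |y|)^10 * (1 + |y|)^(12 * n)) :=
      mul_le_mul_of_nonneg_left (g1.trans (le_mul_of_one_le_left (by positivity) a3)) hE0
    have g4 : M2 * ε^5 * (1 + |y|)^10 ≤ M2 * ε^5 * (1 + |y|)^10 * (1 + |y|)^(12 * n) :=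
      le_mul_of_one_le_right (by positivity) hG
    calc _ ≤ E4 * (ε^5 * (1 + |y|)^10 * (1 + |y|)^(12 * n))
          + M2 * ε^5 * (1 + |y|)^10 * (1 + |y|)^(12 * n) := add_le_add g3 g4
      _ = _ := by ring

/-- The polynomial in `ε` appearing in the expansion. -/
noncomputable def polyE (lam : ℝ) (B : Fin 4 → ℝ) (c ε : ℝ) : ℝ :=
  1 + ε * c1 (mu lam) B c (mom (kap B)) + ε^2 * c2 (mu lam) B c (mom (kap B))
    + ε^3 * c3 (mu lam) B c (mom (kap B)) + ε^4 * c4 (mu lam) B c (mom (kap B))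

lemma Wp_integral {B : Fin 4 → ℝ} {b : ℝ} (h : Adm B b) (c ε : ℝ) :
    Integrable (fun y : ℝ => Wp ε (UU lam B c (-b/2 + y * I)) (VV B (-b/2 + y * I))
      (ZZ B (-b/2 + y * I)) * F0 (B 0 + B 1/2 - b/2) b y) ∧
    ∫ y : ℝ, Wp ε (UU lam B c (-b/2 + y * I)) (VV B (-b/2 + y * I))
      (ZZ B (-b/2 + y * I)) * F0 (B 0 + B 1/2 - b/2) b y
      = 2 * Real.pi * psi (B 0 + B 1/2 - b/2) b 0 * polyE lam B c ε := by
  simp only [UU, VV, ZZ, Wp_eq, Finset.sum_mul, mul_assoc]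
  have hi := fun (j : Fin 9) (r : ℝ) => (F0_moment_integrable h.h0 h.h1 j).const_mul (r:ℂ)
  refine ⟨integrable_finsetSum _ fun j _ => hi j _, ?_⟩
  rw [integral_finsetSum _ fun j _ => hi j _]
  have e : 1 - 2 * (B 0 + B 1/2 - b/2) - b = 2 * kap B := by simp only [kap]; ring
  simp only [integral_const_mul, F0_moment h.h0 h.h1, e, QQ_eval]
  have := cw_sum ε (pa0 (mu lam) (ss B) (dd B) (B 1) c) (pa1 (mu lam) (kap B) (ss B) (B 1))
    (mu lam - 1/2) (pv0 (ss B) (dd B))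
    (pv1 (kap B) (ss B) (dd B)) (pv2 (ss B)) (pg0 (ss B) (dd B)) (pg1 (kap B) (ss B) (dd B))
    (pg2 (ss B) (dd B)) (pg3 (kap B) (ss B) (dd B)) (pg4 (ss B)) (mom (kap B))
  have m0 : mom (kap B) 0 = 1 := by simp [mom, mA, mB]
  rw [m0] at this
  rw [polyE, c1, c2, c3, c4, ← this]
  push_cast
  simp only [Finset.mul_sum]
  exact Finset.sum_congr rfl fun j _ => by ring

noncomputable def K00 (lam : ℝ) : ℂ :=
  exp (J 1) * ((2 * Real.pi / (1 + uu 0) / Real.sqrt (Real.pi / mu lam) : ℝ) : ℂ)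

lemma K00_ne (hl : 2/3 ≤ lam) : K00 lam ≠ 0 := by
  have := uu_pos 0
  have := mu_pos hl
  have : 2 * Real.pi / (1 + uu 0) / Real.sqrt (Real.pi / mu lam) ≠ 0 := by positivity
  exact mul_ne_zero (exp_ne_zero _) (by exact_mod_cast this)

def Asym (lam : ℝ) (B : Fin 4 → ℝ) (c : ℝ) : Prop :=
  (fun ε : ℝ => ((FF lam ε B c * Real.exp (-(Real.pi^2/3/ε)) : ℝ) : ℂ)
    - K00 lam * ((pre B * polyE lam B c ε : ℝ) : ℂ)) =O[𝓝[>] 0] fun ε : ℝ => ε^5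

theorem asym_adm (hl : 2/3 ≤ lam) {B : Fin 4 → ℝ} {b : ℝ} (h : Adm B b) (c : ℝ) :
    Asym lam B c := by
  obtain ⟨M, m, hM⟩ := pointwise hl h c
  have hm := mu_pos hl
  set a := B 0 + B 1/2 - b/2 with ha
  have hi : Integrable fun y : ℝ => ‖F0 a b y‖ * (1 + |y|)^m + (1 + y^2)⁻¹ :=
    (F0_integrable_pow h.h0 h.h1 m).add integrable_inv_one_add_sq
  set D := Real.sqrt (Real.pi / mu lam) with hD
  have hD0 : 0 < D := by positivity
  refine IsBigO.of_bound (D⁻¹ * (M * ∫ y : ℝ, (‖F0 a b y‖ * (1 + |y|)^m + (1 + y^2)⁻¹))) ?_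
  filter_upwards [hM, self_mem_nhdsWithin] with ε hM hε
  have hε : 0 < ε := hε
  have h1 := norm_integral_le_of_norm_le (hi.const_mul (M * ε^5)) (Eventually.of_forall hM)
  obtain ⟨i1, e1⟩ := FF_integral hl hε h c
  obtain ⟨i2, e2⟩ := Wp_integral (lam := lam) h c ε
  rw [integral_sub (i1.mul_const _) (i2.const_mul _), integral_mul_const, integral_const_mul,
    integral_const_mul, e1, e2] at h1
  have e3 : Real.sqrt (Real.pi / (mu lam * ε)) * nrm ε = D * Real.exp (-(Real.pi^2/3/ε)) := by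
    have : Real.exp (Real.log ε / 2) = Real.sqrt ε := by
      rw [Real.sqrt_eq_rpow, Real.rpow_def_of_pos hε]; congr 1; ring
    rw [nrm, Real.exp_add, this, mul_left_comm, ← Real.sqrt_mul (by positivity), mul_comm, hD]
    congr 2; field_simp
  have e4 : Real.exp (-((ss B + b) * Real.log 2)) * psi a b 0 = pre B / (1 + uu 0) := by
    have l4 : Real.log 4 = 2 * Real.log 2 := by
      rw [show (4:ℝ) = 2^2 by norm_num, Real.log_pow]; norm_num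
    have := log_uu 0
    rw [psi, ← mul_div_assoc, ← Real.exp_add, pre]
    congr 2
    rw [ha]
    linear_combination (-b/2) * this + (b/2) * l4
  have e5 : ((FF lam ε B c * Real.exp (-(Real.pi^2/3/ε)) : ℝ) : ℂ)
      - K00 lam * ((pre B * polyE lam B c ε : ℝ) : ℂ) = ((D⁻¹ : ℝ) : ℂ) *
      (((Real.sqrt (Real.pi / (mu lam * ε)) * FF lam ε B c : ℝ) : ℂ) * nrm ε
        - EE B b * (2 * Real.pi * psi a b 0 * polyE lam B c ε)) := by
    have f3 := congrArg (fun x : ℝ => (x:ℂ)) e3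
    have f4 := congrArg (fun x : ℝ => (x:ℂ)) e4
    have hD' : (D:ℂ) ≠ 0 := by exact_mod_cast hD0.ne'
    simp only [K00, EE, ← hD, ofReal_mul, ofReal_div, ofReal_inv, ofReal_ofNat] at f3 f4 ⊢
    have g : (D:ℂ)⁻¹ * D = 1 := inv_mul_cancel₀ hD'
    linear_combination (-(D:ℂ)⁻¹ * FF lam ε B c) * f3
      + ((D:ℂ)⁻¹ * exp (J 1) * 2 * Real.pi * polyE lam B c ε) * f4
      - (FF lam ε B c * Real.exp (-(Real.pi^2/3/ε))) * g
  rw [e5, norm_mul, norm_real, Real.norm_eq_abs, abs_of_pos (inv_pos.2 hD0), Real.norm_eq_abs,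
    abs_of_pos (by positivity), mul_assoc D⁻¹]
  exact mul_le_mul_of_nonneg_left (h1.trans (le_of_eq (by ring))) (by positivity)

end NahmFam
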