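import Pool.Agent.Lib.MP_5c0a0e_nt.Main

/-! Coefficients of the expansion for the one-parameter family. -/

set_option linter.unusedSimpArgs false

namespace NahmFam

open NahmCE

section
variable {K : Type} [Field K]

def cw (e a0 a1 al v0 v1 v2 g0 g1 g2 g3 g4 : K) : Fin 9 → K :=
  ![1 + e * a0 + e^2 * v0 + 1/2 * e^2 * a0^2 + e^3 * a0 * v0 + 1/6 * e^3 * a0^3 + e^4 * g0 + 1/2 * e^4 * v0^2 + 1/2 * e^4 * a0^2 * v0 + 1/24 * e^4 * a0^4,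
    e * a1 + e^2 * v1 + e^2 * a0 * a1 + e^3 * a1 * v0 + e^3 * a0 * v1 + 1/2 * e^3 * a0^2 * a1 + e^4 * g1 + e^4 * v0 * v1 + e^4 * a0 * a1 * v0 + 1/2 * e^4 * a0^2 * v1 + 1/6 * e^4 * a0^3 * a1,
    e * al + e^2 * v2 + 1/2 * e^2 * a1^2 + e^2 * a0 * al + e^3 * al * v0 + e^3 * a1 * v1 + e^3 * a0 * v2 + 1/2 * e^3 * a0 * a1^2 + 1/2 * e^3 * a0^2 * al + e^4 * g2 + 1/2 * e^4 * v1^2 + e^4 * v0 * v2 + 1/2 * e^4 * a1^2 * v0 + e^4 * a0 * al * v0 + e^4 * a0 * a1 * v1 + 1/2 * e^4 * a0^2 * v2 + 1/4 * e^4 * a0^2 * a1^2 + 1/6 * e^4 * a0^3 * al,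
    e^2 * a1 * al + e^3 * al * v1 + e^3 * a1 * v2 + 1/6 * e^3 * a1^3 + e^3 * a0 * a1 * al + e^4 * g3 + e^4 * v1 * v2 + e^4 * a1 * al * v0 + 1/2 * e^4 * a1^2 * v1 + e^4 * a0 * al * v1 + e^4 * a0 * a1 * v2 + 1/6 * e^4 * a0 * a1^3 + 1/2 * e^4 * a0^2 * a1 * al,
    1/2 * e^2 * al^2 + e^3 * al * v2 + 1/2 * e^3 * a1^2 * al + 1/2 * e^3 * a0 * al^2 + e^4 * g4 + 1/2 * e^4 * v2^2 + 1/2 * e^4 * al^2 * v0 + e^4 * a1 * al * v1 + 1/2 * e^4 * a1^2 * v2 + 1/24 * e^4 * a1^4 + e^4 * a0 * al * v2 + 1/2 * e^4 * a0 * a1^2 * al + 1/4 * e^4 * a0^2 * al^2,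
    1/2 * e^3 * a1 * al^2 + 1/2 * e^4 * al^2 * v1 + e^4 * a1 * al * v2 + 1/6 * e^4 * a1^3 * al + 1/2 * e^4 * a0 * a1 * al^2,
    1/6 * e^3 * al^3 + 1/2 * e^4 * al^2 * v2 + 1/4 * e^4 * a1^2 * al^2 + 1/6 * e^4 * a0 * al^3,
    1/6 * e^4 * a1 * al^3,
    1/24 * e^4 * al^4]

def L1 (a0 a1 al : K) (m : ℕ → K) : K :=
  (a0) * m 0
  + (a1) * m 1
  + (al) * m 2

def L2 (a0 a1 al v0 v1 v2 : K) (m : ℕ → K) : K :=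
  (v0 + 1/2 * a0^2) * m 0
  + (v1 + a0 * a1) * m 1
  + (v2 + 1/2 * a1^2 + a0 * al) * m 2
  + (a1 * al) * m 3
  + (1/2 * al^2) * m 4

def L3 (a0 a1 al v0 v1 v2 : K) (m : ℕ → K) : K :=
  (a0 * v0 + 1/6 * a0^3) * m 0
  + (a1 * v0 + a0 * v1 + 1/2 * a0^2 * a1) * m 1
  + (al * v0 + a1 * v1 + a0 * v2 + 1/2 * a0 * a1^2 + 1/2 * a0^2 * al) * m 2
  + (al * v1 + a1 * v2 + 1/6 * a1^3 + a0 * a1 * al) * m 3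
  + (al * v2 + 1/2 * a1^2 * al + 1/2 * a0 * al^2) * m 4
  + (1/2 * a1 * al^2) * m 5
  + (1/6 * al^3) * m 6

def L4 (a0 a1 al v0 v1 v2 g0 g1 g2 g3 g4 : K) (m : ℕ → K) : K :=
  (g0 + 1/2 * v0^2 + 1/2 * a0^2 * v0 + 1/24 * a0^4) * m 0
  + (g1 + v0 * v1 + a0 * a1 * v0 + 1/2 * a0^2 * v1 + 1/6 * a0^3 * a1) * m 1
  + (g2 + 1/2 * v1^2 + v0 * v2 + 1/2 * a1^2 * v0 + a0 * al * v0 + a0 * a1 * v1 + 1/2 * a0^2 * v2 + 1/4 * a0^2 * a1^2 + 1/6 * a0^3 * al) * m 2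
  + (g3 + v1 * v2 + a1 * al * v0 + 1/2 * a1^2 * v1 + a0 * al * v1 + a0 * a1 * v2 + 1/6 * a0 * a1^3 + 1/2 * a0^2 * a1 * al) * m 3
  + (g4 + 1/2 * v2^2 + 1/2 * al^2 * v0 + a1 * al * v1 + 1/2 * a1^2 * v2 + 1/24 * a1^4 + a0 * al * v2 + 1/2 * a0 * a1^2 * al + 1/4 * a0^2 * al^2) * m 4
  + (1/2 * al^2 * v1 + a1 * al * v2 + 1/6 * a1^3 * al + 1/2 * a0 * a1 * al^2) * m 5
  + (1/2 * al^2 * v2 + 1/4 * a1^2 * al^2 + 1/6 * a0 * al^3) * m 6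
  + (1/6 * a1 * al^3) * m 7
  + (1/24 * al^4) * m 8

def pa0 (μ s d w c : K) : K := (s^2 + d^2)/8 - 1/12 + μ * w^2/4 - c
def pa1 (μ k s w : K) : K := k - s/2 - 1/2 + μ * w

def c1 (μ : K) (B : Fin 4 → K) (c : K) (m : ℕ → K) : K :=
  L1 (pa0 μ (ss B) (dd B) (B 1) c) (pa1 μ (kap B) (ss B) (B 1)) (μ - 1/2) m
def c2 (μ : K) (B : Fin 4 → K) (c : K) (m : ℕ → K) : K :=
  L2 (pa0 μ (ss B) (dd B) (B 1) c) (pa1 μ (kap B) (ss B) (B 1)) (μ - 1/2)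
    (pv0 (ss B) (dd B)) (pv1 (kap B) (ss B) (dd B)) (pv2 (ss B)) m
def c3 (μ : K) (B : Fin 4 → K) (c : K) (m : ℕ → K) : K :=
  L3 (pa0 μ (ss B) (dd B) (B 1) c) (pa1 μ (kap B) (ss B) (B 1)) (μ - 1/2)
    (pv0 (ss B) (dd B)) (pv1 (kap B) (ss B) (dd B)) (pv2 (ss B)) m
def c4 (μ : K) (B : Fin 4 → K) (c : K) (m : ℕ → K) : K :=
  L4 (pa0 μ (ss B) (dd B) (B 1) c) (pa1 μ (kap B) (ss B) (B 1)) (μ - 1/2)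
    (pv0 (ss B) (dd B)) (pv1 (kap B) (ss B) (dd B)) (pv2 (ss B))
    (pg0 (ss B) (dd B)) (pg1 (kap B) (ss B) (dd B)) (pg2 (ss B) (dd B))
    (pg3 (kap B) (ss B) (dd B)) (pg4 (ss B)) m

lemma cw_sum (e a0 a1 al v0 v1 v2 g0 g1 g2 g3 g4 : K) (m : ℕ → K) :
    ∑ j : Fin 9, cw e a0 a1 al v0 v1 v2 g0 g1 g2 g3 g4 j * m j = m 0 + e * L1 a0 a1 al m
      + e^2 * L2 a0 a1 al v0 v1 v2 m + e^3 * L3 a0 a1 al v0 v1 v2 m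
      + e^4 * L4 a0 a1 al v0 v1 v2 g0 g1 g2 g3 g4 m := by
  simp only [Fin.sum_univ_succ, cw, L1, L2, L3, L4, Matrix.cons_val_zero, Matrix.cons_val_succ,
    Fin.sum_univ_zero, Fin.val_succ, Fin.val_zero, Nat.reduceAdd]
  ring

end

lemma Wp_eq (e a0 a1 al v0 v1 v2 g0 g1 g2 g3 g4 : ℝ) (z : ℂ) :
    Wp e (a0 + a1 * z + al * z^2) (v0 + v1 * z + v2 * z^2)
      (g0 + g1 * z + g2 * z^2 + g3 * z^3 + g4 * z^4)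
      = ∑ j : Fin 9, (cw e a0 a1 al v0 v1 v2 g0 g1 g2 g3 g4 j : ℝ) * z^(j:ℕ) := by
  simp only [Fin.sum_univ_succ, cw, Wp, Matrix.cons_val_zero, Matrix.cons_val_succ,
    Fin.sum_univ_zero, Fin.val_succ, Fin.val_zero, Nat.reduceAdd]
  push_cast
  ring

end NahmFam
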