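import Pool.Agent.Lib.MP_5c0a0e_nt.Fam.Extend

/-! Consequences of invariance for the Nahm sums of the family. -/

namespace NahmFam

open NahmCE Filter Topology Set Asymptotics Complex Function

variable {lam : ℝ}

noncomputable def cterm (lam : ℝ) (B : Fin 4 → ℝ) (c : ℝ) (z : ℂ) (n : Fin 4 → ℕ) : ℂ :=
  exp (2 * Real.pi * I * z * expo lam B c n) / (cq z (n 0) * cq z (n 1) * cq z (n 2) * cq z (n 3))

noncomputable def fC (lam : ℝ) (B : Fin 4 → ℝ) (c : ℝ) (z : ℂ) : ℂ := ∑' n, cterm lam B c z n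

lemma cterm_norm (B : Fin 4 → ℝ) (c : ℝ) {z : ℂ} (hz : 0 < z.im) (n : Fin 4 → ℕ) :
    ‖cterm lam B c z n‖ ≤ term lam (2 * Real.pi * z.im) B c n := by
  have h1 := cq_norm hz
  have h2 := fun k => (qp_pos (ε := 2 * Real.pi * z.im) (by positivity) k)
  rw [cterm, term, norm_div, norm_mul, norm_mul, norm_mul, norm_exp]
  refine div_le_div₀ (Real.exp_pos _).le (le_of_eq ?_)
    (mul_pos (mul_pos (mul_pos (h2 _) (h2 _)) (h2 _)) (h2 _)) ?_
  · congr 1; simp
  · exact mul_le_mul (mul_le_mul (mul_le_mul (h1 _) (h1 _) (h2 _).le (norm_nonneg _)) (h1 _)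
      (h2 _).le (by positivity)) (h1 _) (h2 _).le (by positivity)

lemma fC_norm (hl : 2/3 ≤ lam) (B : Fin 4 → ℝ) (c : ℝ) {z : ℂ} (hz : 0 < z.im) :
    ‖fC lam B c z‖ ≤ FF lam (2 * Real.pi * z.im) B c :=
  tsum_of_norm_bounded (term_summable hl (by positivity) B c).hasSum (cterm_norm B c hz)

lemma fC_diff (hl : 2/3 ≤ lam) (B : Fin 4 → ℝ) (c : ℝ) {z : ℂ} (hz : 0 < z.im) : DifferentiableAt ℂ (fC lam B c) z := by
  obtain ⟨u, hu, h⟩ := term_bound hl (δ := 2 * Real.pi * (z.im / 2)) (by positivity)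
    (2 * Real.pi * (z.im + 1)) B c
  have hU : IsOpen {w : ℂ | z.im / 2 < w.im ∧ w.im < z.im + 1} :=
    (isOpen_lt continuous_const continuous_im).inter (isOpen_lt continuous_im continuous_const)
  have hπ := Real.pi_pos
  refine (differentiableOn_tsum_of_summable_norm hu (fun n w hw => ?_) hU
    (fun n w hw => ?_)).differentiableAt (hU.mem_nhds ⟨by linarith, by linarith⟩)
  · have hw0 : 0 < w.im := by linarith [hw.1]
    have d : ∀ k, DifferentiableAt ℂ (fun w => cq w k) w := fun k => by unfold cq; fun_prop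
    refine DifferentiableAt.differentiableWithinAt ?_
    exact DifferentiableAt.div (by fun_prop) ((((d _).mul (d _)).mul (d _)).mul (d _))
      (mul_ne_zero (mul_ne_zero (mul_ne_zero (cq_ne hw0 _) (cq_ne hw0 _)) (cq_ne hw0 _))
        (cq_ne hw0 _))
  · have hw0 : 0 < w.im := by linarith [hw.1]
    exact (cterm_norm B c hw0 n).trans (h _ (by nlinarith [hw.1]) (by nlinarith [hw.2]) n)

lemma fC_axis (B : Fin 4 → ℝ) (c ε : ℝ) :
    fC lam B c ((ε / (2 * Real.pi) : ℝ) * I) = FF lam ε B c := by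
  have hπ : (Real.pi : ℂ) ≠ 0 := by exact_mod_cast Real.pi_ne_zero
  have e : 2 * Real.pi * I * (((ε / (2 * Real.pi) : ℝ):ℂ) * I) = -(ε:ℂ) := by
    push_cast; field_simp; rw [I_sq]; ring
  have e2 : ∀ k, cq (((ε / (2 * Real.pi) : ℝ):ℂ) * I) k = qp ε k := by
    intro k
    rw [cq, e, qp]
    push_cast
    refine Finset.prod_congr rfl fun j _ => ?_
    rw [qc_pow]; push_cast; rfl
  rw [fC, FF, ofReal_tsum]
  refine tsum_congr fun n => ?_
  rw [cterm, e, term]
  simp only [e2]
  push_cast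
  rw [neg_mul]

lemma polyE_cont (B : Fin 4 → ℝ) (c : ℝ) : Continuous (polyE lam B c) := by unfold polyE; fun_prop

lemma FF_growth (hl : 2/3 ≤ lam) (B : Fin 4 → ℝ) (c : ℝ) : ∃ K δ : ℝ, 0 ≤ K ∧ 0 < δ ∧ ∀ ε, 0 < ε → ε < δ →
    FF lam ε B c ≤ K * Real.exp (Real.pi^2/3/ε) := by
  have hp : Continuous fun ε : ℝ => K00 lam * ((pre B * polyE lam B c ε : ℝ) : ℂ) := by
    have := polyE_cont (lam := lam) B c; fun_prop
  have t1 := (((asym_all hl B c).trans_tendsto pow5_tendsto).add
    ((hp.tendsto 0).mono_left nhdsWithin_le_nhds)).norm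
  have t2 := t1.eventually (eventually_le_nhds (lt_add_one _))
  obtain ⟨δ, hδ, h⟩ := (nhdsGT_basis 0).eventually_iff.1 t2
  refine ⟨‖0 + K00 lam * ((pre B * polyE lam B c 0 : ℝ) : ℂ)‖ + 1, δ, by positivity, hδ,
    fun ε h1 h2 => ?_⟩
  have := h ⟨h1, h2⟩
  rw [sub_add_cancel, norm_real, Real.norm_eq_abs, Real.exp_neg] at this
  have h3 := (le_abs_self _).trans this
  rwa [← div_eq_mul_inv, div_le_iff₀ (Real.exp_pos _)] at h3

/-- If the Nahm sum is invariant under a parabolic element fixing the cusp `0`, all the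
higher coefficients of the expansion vanish. -/
theorem coeffs_zero (hl : 2/3 ≤ lam) (B : Fin 4 → ℝ) (c : ℝ) {h : ℝ} (hh : 0 < h)
    (hinv : ∀ z : ℂ, 0 < z.im → fC lam B c (-(z + h)⁻¹) = fC lam B c (-z⁻¹)) :
    c1 (mu lam) B c (mom (kap B)) = 0 ∧ c2 (mu lam) B c (mom (kap B)) = 0 ∧ c3 (mu lam) B c (mom (kap B)) = 0 ∧
      c4 (mu lam) B c (mom (kap B)) = 0 := by
  classical
  have hπ := Real.pi_pos
  set g : ℂ → ℂ := fun z => if 0 < z.im then fC lam B c (-z⁻¹) else 0 with hg
  have him : ∀ z : ℂ, (-z⁻¹).im = z.im / (z.re^2 + z.im^2) := by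
    intro z; simp [normSq_apply, neg_div, sq]
  have hpos : ∀ z : ℂ, 0 < z.im → 0 < (-z⁻¹).im := fun z hz => by rw [him]; positivity
  have hper : Periodic g h := by
    intro z
    by_cases hz : 0 < z.im
    · simp [hg, hz, hinv z hz]
    · simp [hg, hz]
  have hax : ∀ ε : ℝ, 0 < ε → g ((2 * Real.pi / ε : ℝ) * I) = FF lam ε B c := by
    intro ε hε
    have h1 : 0 < (((2 * Real.pi / ε : ℝ):ℂ) * I).im := by
      rw [mul_I_im, ofReal_re]; positivity
    rw [hg]
    simp only [if_pos h1]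
    rw [← fC_axis, mul_inv, inv_I, ← ofReal_inv, inv_div, mul_neg, neg_neg]
  obtain ⟨K, δ, hK, hδ, hF⟩ := FF_growth hl B c
  obtain ⟨ν, b, hb, h2⟩ := cusp_asym g hh hper (fun z hz => by
      have : g =ᶠ[𝓝 z] fun z => fC lam B c (-z⁻¹) := by
        filter_upwards [(isOpen_lt continuous_const continuous_im).mem_nhds hz] with w hw
        exact if_pos hw
      refine DifferentiableAt.congr_of_eventuallyEq ?_ this
      have hz0 : z ≠ 0 := by rintro rfl; simp at hz
      exact (fC_diff hl B c (hpos z hz)).comp z (differentiableAt_inv hz0).neg)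
    K (Real.pi / 3) (h + 2 * Real.pi / δ + 1) (fun z hz => by
      have p1 : 0 < 2 * Real.pi / δ := by positivity
      set w : ℂ := z - (⌊z.re / h⌋ : ℤ) * (h:ℂ) with hw
      have e1 : g z = g w := (hper.sub_int_mul_eq _).symm
      have e2 : w.im = z.im := by simp [hw]
      have e3 : w.re = z.re - ⌊z.re / h⌋ * h := by simp [hw]
      have r1 : 0 ≤ w.re := by
        have := Int.floor_le (z.re / h)
        rw [le_div_iff₀ hh] at this; linarith
      have r2 : w.re ≤ h := by
        have := Int.lt_floor_add_one (z.re / h)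
        rw [div_lt_iff₀ hh] at this; linarith
      have y0 : 0 < w.im := by linarith
      have q0 : 0 < w.re^2 + w.im^2 := by positivity
      rw [e1, hg, ← e2]
      simp only [if_pos y0]
      refine (fC_norm hl B c (hpos w y0)).trans ((hF _ (by have := hpos w y0; positivity) ?_).trans ?_)
      · rw [him, ← mul_div_assoc, div_lt_iff₀ q0]
        have : 2 * Real.pi < w.im * δ := by
          rw [← div_lt_iff₀ hδ]; linarith
        nlinarith [mul_lt_mul_of_pos_right this y0, mul_nonneg hδ.le (sq_nonneg w.re)]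
      · refine mul_le_mul_of_nonneg_left (Real.exp_le_exp.2 ?_) hK
        rw [him, div_le_iff₀ (by positivity)]
        have : w.re^2 ≤ w.im^2 := pow_le_pow_left₀ r1 (by linarith) 2
        have e : Real.pi / 3 * w.im * (2 * Real.pi * (w.im / (w.re^2 + w.im^2)))
          = Real.pi^2 / 3 * (2 * w.im^2 / (w.re^2 + w.im^2)) := by ring
        rw [e]
        refine le_mul_of_one_le_right (by positivity) ?_
        rw [le_div_iff₀ q0]; linarith)
    (fun y hy => by
      have := hax (2 * Real.pi / y) (by positivity)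
      rw [show 2 * Real.pi / (2 * Real.pi / y) = y by field_simp] at this
      rw [this]
      exact_mod_cast (FF_pos hl (by positivity) B c).ne')
  have hp : Continuous fun ε : ℝ => K00 lam * ((pre B * polyE lam B c ε : ℝ) : ℂ) := by
    have := polyE_cont (lam := lam) B c; fun_prop
  have hpre : ((pre B : ℝ) : ℂ) ≠ 0 := by exact_mod_cast (Real.exp_pos _).ne'
  have h3 := compare_asym (F := fun ε => (FF lam ε B c : ℂ)) (Λ := Real.pi^2/3) (ν := ν) hb hp
    (by simpa [polyE, K00_ne hl] using hpre) ((asym_all hl B c).congr_left fun ε => by push_cast; rfl)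
    (h2.congr' (by
      filter_upwards [self_mem_nhdsWithin] with ε hε
      rw [hax ε hε]) EventuallyEq.rfl)
  have h4 := poly4_zero (p0 := K00 lam * pre B - b) (p1 := K00 lam * pre B * c1 (mu lam) B c (mom (kap B)))
    (p2 := K00 lam * pre B * c2 (mu lam) B c (mom (kap B))) (p3 := K00 lam * pre B * c3 (mu lam) B c (mom (kap B)))
    (p4 := K00 lam * pre B * c4 (mu lam) B c (mom (kap B))) (h3.congr_left fun ε => by
      simp only [polyE]; push_cast; ring)
  simpa only [mul_eq_zero, K00_ne hl, hpre, false_or, ofReal_eq_zero] using h4.2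

end NahmFam
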