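import Pool.Agent.Lib.MP_5c0a0e_nt.Fam.Asym

/-! Extension of the asymptotic expansion to all values of the linear term. -/

namespace NahmFam

open NahmCE Filter Topology Set Asymptotics

variable {lam : ℝ}

lemma asym_good (hl : 2/3 ≤ lam) {B : Fin 4 → ℝ} (h0 : 0 < 2 * B 0 + B 1) (h2 : 0 < B 0 + B 2 + 1/2)
    (h3 : 0 < B 0 + B 3 + 1/2) (c : ℝ) : Asym lam B c := by
  obtain ⟨b, hb1, hb2⟩ := exists_between (show max 0 (max (B 1 - 2 * B 2 - 1) (B 1 - 2 * B 3 - 1))
    < 2 * B 0 + B 1 from max_lt h0 (max_lt (by linarith) (by linarith)))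
  simp only [max_lt_iff] at hb1
  exact asym_adm hl (b := b) ⟨by linarith, hb1.1, by linarith [hb1.2.1], by linarith [hb1.2.2]⟩ c

noncomputable def defect (lam : ℝ) (i : Fin 4) (B : Fin 4 → ℝ) (c ε : ℝ) : ℝ :=
  pre B * polyE lam B c ε - pre (B + Pi.single i 1) * polyE lam (B + Pi.single i 1) c ε
    - pre (B + AR lam i) * polyE lam (B + AR lam i) (c + AR lam i i / 2 + B i) ε

lemma defect_zero_of_asym (hl : 2/3 ≤ lam) {i : Fin 4} {B : Fin 4 → ℝ} {c : ℝ} (h0 : Asym lam B c)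
    (h1 : Asym lam (B + Pi.single i 1) c) (h2 : Asym lam (B + AR lam i) (c + AR lam i i / 2 + B i)) (ε : ℝ) :
    defect lam i B c ε = 0 := by
  have h := (h1.add h2).sub h0
  set B1 := B + Pi.single i 1
  set B2 := B + AR lam i
  set c' := c + AR lam i i / 2 + B i
  have h' := poly4_zero (p0 := K00 lam * ((pre B - pre B1 - pre B2 : ℝ) : ℂ))
    (p1 := K00 lam * ((pre B * c1 (mu lam) B c (mom (kap B)) - pre B1 * c1 (mu lam) B1 c (mom (kap B1))
      - pre B2 * c1 (mu lam) B2 c' (mom (kap B2)) : ℝ) : ℂ))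
    (p2 := K00 lam * ((pre B * c2 (mu lam) B c (mom (kap B)) - pre B1 * c2 (mu lam) B1 c (mom (kap B1))
      - pre B2 * c2 (mu lam) B2 c' (mom (kap B2)) : ℝ) : ℂ))
    (p3 := K00 lam * ((pre B * c3 (mu lam) B c (mom (kap B)) - pre B1 * c3 (mu lam) B1 c (mom (kap B1))
      - pre B2 * c3 (mu lam) B2 c' (mom (kap B2)) : ℝ) : ℂ))
    (p4 := K00 lam * ((pre B * c4 (mu lam) B c (mom (kap B)) - pre B1 * c4 (mu lam) B1 c (mom (kap B1))
      - pre B2 * c4 (mu lam) B2 c' (mom (kap B2)) : ℝ) : ℂ))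
    (h.congr' ?_ EventuallyEq.rfl)
  · simp only [mul_eq_zero, K00_ne hl, false_or, Complex.ofReal_eq_zero] at h'
    obtain ⟨a0, a1, a2, a3, a4⟩ := h'
    simp only [defect, polyE]
    linear_combination a0 + ε * a1 + ε^2 * a2 + ε^3 * a3 + ε^4 * a4
  · filter_upwards [self_mem_nhdsWithin] with ε hε
    rw [FF_rec hl hε B c i]
    simp only [polyE]
    push_cast
    ring

section
variable {x : ℝ} {a0 a1 v0 v1 v2 g0 g1 g2 g3 g4 : ℝ → ℝ} {m : ℝ → ℕ → ℝ}

lemma L_analytic (al : ℝ) (h0 : AnalyticAt ℝ a0 x) (h1 : AnalyticAt ℝ a1 x) (h2 : AnalyticAt ℝ v0 x)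
    (h3 : AnalyticAt ℝ v1 x) (h4 : AnalyticAt ℝ v2 x) (h5 : AnalyticAt ℝ g0 x)
    (h6 : AnalyticAt ℝ g1 x) (h7 : AnalyticAt ℝ g2 x) (h8 : AnalyticAt ℝ g3 x)
    (h9 : AnalyticAt ℝ g4 x) (hm : ∀ j, AnalyticAt ℝ (fun t => m t j) x) :
    AnalyticAt ℝ (fun t => L1 (a0 t) (a1 t) al (m t)) x ∧
    AnalyticAt ℝ (fun t => L2 (a0 t) (a1 t) al (v0 t) (v1 t) (v2 t) (m t)) x ∧
    AnalyticAt ℝ (fun t => L3 (a0 t) (a1 t) al (v0 t) (v1 t) (v2 t) (m t)) x ∧
    AnalyticAt ℝ (fun t => L4 (a0 t) (a1 t) al (v0 t) (v1 t) (v2 t) (g0 t) (g1 t) (g2 t) (g3 t) (g4 t)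
      (m t)) x := by
  have m0 := hm 0; have m1 := hm 1; have m2 := hm 2; have m3 := hm 3; have m4 := hm 4
  have m5 := hm 5; have m6 := hm 6; have m7 := hm 7; have m8 := hm 8
  refine ⟨?_, ?_, ?_, ?_⟩
  · unfold L1; fun_prop
  · unfold L2; fun_prop
  · unfold L3; fun_prop
  · unfold L4; fun_prop

lemma polyE_analytic {B : ℝ → Fin 4 → ℝ} {c : ℝ → ℝ} (hB : ∀ i, AnalyticAt ℝ (fun t => B t i) x)
    (hc : AnalyticAt ℝ c x) (ε : ℝ) :
    AnalyticAt ℝ (fun t => pre (B t) * polyE lam (B t) (c t) ε) x := by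
  have b0 := hB 0; have b1 := hB 1; have b2 := hB 2; have b3 := hB 3
  have hk : AnalyticAt ℝ (fun t => kap (B t)) x := by unfold kap; fun_prop
  have hs : AnalyticAt ℝ (fun t => ss (B t)) x := by unfold ss; fun_prop
  have hd : AnalyticAt ℝ (fun t => dd (B t)) x := by unfold dd; fun_prop
  obtain ⟨l1, l2, l3, l4⟩ := L_analytic (mu lam - 1/2)
    (a0 := fun t => pa0 (mu lam) (ss (B t)) (dd (B t)) (B t 1) (c t))
    (a1 := fun t => pa1 (mu lam) (kap (B t)) (ss (B t)) (B t 1))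
    (v0 := fun t => pv0 (ss (B t)) (dd (B t)))
    (v1 := fun t => pv1 (kap (B t)) (ss (B t)) (dd (B t))) (v2 := fun t => pv2 (ss (B t)))
    (g0 := fun t => pg0 (ss (B t)) (dd (B t)))
    (g1 := fun t => pg1 (kap (B t)) (ss (B t)) (dd (B t)))
    (g2 := fun t => pg2 (ss (B t)) (dd (B t)))
    (g3 := fun t => pg3 (kap (B t)) (ss (B t)) (dd (B t))) (g4 := fun t => pg4 (ss (B t)))
    (m := fun t => mom (kap (B t)))
    (by unfold pa0; fun_prop) (by unfold pa1; fun_prop) (by unfold pv0; fun_prop)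
    (by unfold pv1; fun_prop) (by unfold pv2; fun_prop) (by unfold pg0; fun_prop)
    (by unfold pg1; fun_prop) (by unfold pg2; fun_prop) (by unfold pg3; fun_prop)
    (by unfold pg4; fun_prop) (mom_analytic hk)
  have hp : AnalyticAt ℝ (fun t => pre (B t)) x := by unfold pre; fun_prop
  exact hp.mul ((((analyticAt_const.add (analyticAt_const.mul l1)).add
    (analyticAt_const.mul l2)).add (analyticAt_const.mul l3)).add (analyticAt_const.mul l4))

end

lemma defect_zero (hl : 2/3 ≤ lam) (i : Fin 4) (B : Fin 4 → ℝ) (c ε : ℝ) : defect lam i B c ε = 0 := by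
  have ha : AnalyticOnNhd ℝ (fun t : ℝ => defect lam i (B + Pi.single 0 t) c ε) univ := by
    intro x _
    have hB : ∀ j, AnalyticAt ℝ (fun t : ℝ => (B + Pi.single 0 t : Fin 4 → ℝ) j) x := by
      intro j; fin_cases j <;> simp <;> fun_prop
    have a1 := polyE_analytic (lam := lam) (B := fun t => B + Pi.single 0 t) (c := fun _ => c) hB
      analyticAt_const ε
    have a2 := polyE_analytic (lam := lam) (B := fun t => B + Pi.single 0 t + Pi.single i 1) (c := fun _ => c)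
      (fun j => (hB j).fun_add analyticAt_const) analyticAt_const ε
    have a3 := polyE_analytic (lam := lam) (B := fun t => B + Pi.single 0 t + AR lam i)
      (c := fun t => c + AR lam i i / 2 + (B + Pi.single 0 t : Fin 4 → ℝ) i)
      (fun j => (hB j).fun_add analyticAt_const) (analyticAt_const.fun_add (hB i)) ε
    exact (a1.fun_sub a2).fun_sub a3
  set T := |B 0| + |B 1| + |B 2| + |B 3| + 2 + 4 * lam with hT
  have hz : (fun t : ℝ => defect lam i (B + Pi.single 0 t) c ε) =ᶠ[𝓝 (T+1)] 0 := by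
    filter_upwards [eventually_gt_nhds (lt_add_one T)] with t ht
    have := neg_abs_le (B 0); have := neg_abs_le (B 1); have := neg_abs_le (B 2)
    have := neg_abs_le (B 3); have := abs_nonneg (B 0); have := abs_nonneg (B 1)
    have := abs_nonneg (B 2); have := abs_nonneg (B 3)
    refine defect_zero_of_asym hl (asym_good hl ?_ ?_ ?_ _) (asym_good hl ?_ ?_ ?_ _)
      (asym_good hl ?_ ?_ ?_ _) ε <;> fin_cases i <;> simp [AR] <;> linarith
  have := ha.eqOn_zero_of_preconnected_of_eventuallyEq_zero isPreconnected_univ (mem_univ _) hz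
    (mem_univ 0)
  simpa using this

lemma asym_step (hl : 2/3 ≤ lam) (i : Fin 4) {B : Fin 4 → ℝ} {c : ℝ}
    (h1 : Asym lam (B + Pi.single i 1) c) (h2 : Asym lam (B + AR lam i) (c + AR lam i i / 2 + B i)) :
    Asym lam B c := by
  refine (h1.add h2).congr' ?_ EventuallyEq.rfl
  filter_upwards [self_mem_nhdsWithin] with ε hε
  have h := congrArg (fun x : ℝ => (x:ℂ)) (defect_zero hl i B c ε)
  rw [FF_rec hl hε B c i]
  simp only [defect] at h
  push_cast at h ⊢
  linear_combination K00 lam * h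

theorem asym_all (hl : 2/3 ≤ lam) (B : Fin 4 → ℝ) (c : ℝ) : Asym lam B c := by
  have s2 : ∀ n : ℕ, ∀ (B : Fin 4 → ℝ) (c : ℝ), 0 < 2 * B 0 + B 1 → -(n:ℝ) < B 0 + B 2 + 1/2 →
      0 < B 0 + B 3 + 1/2 → Asym lam B c := by
    intro n; induction n with
    | zero => intro B c h0 h2 h3; exact asym_good hl h0 (by simpa using h2) h3 c
    | succ n ih =>
      intro B c h0 h2 h3
      push_cast at h2
      refine asym_step hl 2 (ih _ _ ?_ ?_ ?_) (ih _ _ ?_ ?_ ?_) <;> simp [AR] <;> linarith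
  have s3 : ∀ n : ℕ, ∀ (B : Fin 4 → ℝ) (c : ℝ), 0 < 2 * B 0 + B 1 →
      -(n:ℝ) < B 0 + B 3 + 1/2 → Asym lam B c := by
    intro n; induction n with
    | zero =>
      intro B c h0 h3
      obtain ⟨k, hk⟩ := exists_nat_gt (-(B 0 + B 2 + 1/2))
      exact s2 k B c h0 (by linarith) (by simpa using h3)
    | succ n ih =>
      intro B c h0 h3
      push_cast at h3
      refine asym_step hl 3 (ih _ _ ?_ ?_) (ih _ _ ?_ ?_) <;> simp [AR] <;> linarith
  have s0 : ∀ n : ℕ, ∀ (B : Fin 4 → ℝ) (c : ℝ), -(n:ℝ) < 2 * B 0 + B 1 → Asym lam B c := by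
    intro n; induction n with
    | zero =>
      intro B c h0
      obtain ⟨k, hk⟩ := exists_nat_gt (-(B 0 + B 3 + 1/2))
      exact s3 k B c (by simpa using h0) (by linarith)
    | succ n ih =>
      intro B c h0
      push_cast at h0
      refine asym_step hl 0 (ih _ _ ?_) (ih _ _ ?_) <;> simp [AR] <;> linarith
  obtain ⟨k, hk⟩ := exists_nat_gt (-(2 * B 0 + B 1))
  exact s0 k B c (by linarith)

end NahmFam
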