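import Pool.Agent.Lib.MP_5c0a0e_nt.Fam.Cusp
import Pool.Agent.Lib.MP_5c0a0e_nt.Fam.Algebra

/-! The family of integer counterexamples. -/

namespace NahmFam

open NahmCE Complex
open scoped MatrixGroups UpperHalfPlane

def famA (m : ℕ) : Matrix (Fin 4) (Fin 4) ℚ :=
  !![m, 1 - 2 * m, -m, -m; 1 - 2 * m, 4 * m, 2 * m, 2 * m; -m, 2 * m, 1 + m, m;
    -m, 2 * m, m, 1 + m]

lemma famA_posDef {m : ℕ} (hm : 1 ≤ m) : (famA m).PosDef := by
  refine Matrix.PosDef.of_dotProduct_mulVec_pos ?_ fun x hx => ?_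
  · ext i j; fin_cases i <;> fin_cases j <;> simp [famA]
  · have h1 : 0 < x 0^2 + x 1^2 + x 2^2 + x 3^2 := by
      by_contra hn
      apply hx
      have := sq_nonneg (x 0); have := sq_nonneg (x 1); have := sq_nonneg (x 2)
      have := sq_nonneg (x 3)
      funext i
      fin_cases i <;> simp <;> nlinarith
    have h2 : star x ⬝ᵥ Matrix.mulVec (famA m) x = (x 0^2 + x 1^2 + x 2^2 + x 3^2)/15
        + 2 * (3/10 * (x 0 - 5/9 * x 1 - 10/9 * x 2 - 10/9 * x 3)^2
        + 163/135 * (x 1 + 65/163 * x 2 + 65/163 * x 3)^2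
        + 581/2445 * (x 2 - 80/83 * x 3)^2 + 7/415 * x 3^2)
        + ((m:ℚ) - 2/3) * (x 0 - 2 * x 1 - x 2 - x 3)^2 := by
      simp [dotProduct, Matrix.mulVec, Fin.sum_univ_four, famA]; ring
    have h3 : (0:ℚ) ≤ (m:ℚ) - 2/3 := by
      have : (1:ℚ) ≤ m := by exact_mod_cast hm
      linarith
    rw [h2]; positivity

lemma sol_eqs {m : ℕ} (hm : 1 ≤ m) {u v : Fin 4 → ℂ} (h : IsNahmSolution (famA m) u v) :
    (exp (u 1) = 1 - exp (u 0) ∧ exp (u 3) = 1 - exp (u 2)) ∨
    (exp (u 1) = 1 / (1 - exp (u 0)) ∧ exp (u 2) = 1 / exp (u 0) ∧ exp (u 3) = 1 / exp (u 0) ∧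
      (1 - exp (u 0)) ^ (m - 1) = -1) := by
  have a0 := h.1 0; have a1 := h.1 1; have a2 := h.1 2; have a3 := h.1 3
  have b0 := h.2 0; have b1 := h.2 1; have b2 := h.2 2; have b3 := h.2 3
  simp [Fin.sum_univ_four, famA] at b0 b1 b2 b3
  set w := v 0 - 2 * v 1 - v 2 - v 3 with hw
  set t := exp (m * w) with ht
  set s := exp w with hs
  have t0 : t ≠ 0 := exp_ne_zero _
  have x00 : exp (u 0) ≠ 0 := exp_ne_zero _
  have e0 : exp (u 0) = exp (v 1) * t := by
    rw [ht, ← exp_add]; congr 1; rw [b0, hw]; ring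
  have e1 : exp (u 1) * t * t = exp (v 0) := by
    rw [ht, ← exp_add, ← exp_add]; congr 1; rw [b1, hw]; ring
  have e2 : exp (u 2) * t = exp (v 2) := by
    rw [ht, ← exp_add]; congr 1; rw [b2, hw]; ring
  have e3 : exp (u 3) * t = exp (v 3) := by
    rw [ht, ← exp_add]; congr 1; rw [b3, hw]; ring
  have e4 : s * exp (v 1) * exp (v 1) * exp (v 2) * exp (v 3) = exp (v 0) := by
    rw [hs, ← exp_add, ← exp_add, ← exp_add, ← exp_add]; congr 1; rw [hw]; ring
  have e5 : t = s ^ m := by rw [hs, ht, exp_nat_mul]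
  generalize exp (u 0) = x0 at *
  generalize exp (u 1) = x1 at *
  generalize exp (u 2) = x2 at *
  generalize exp (u 3) = x3 at *
  generalize exp (v 0) = y0 at *
  generalize exp (v 1) = y1 at *
  generalize exp (v 2) = y2 at *
  generalize exp (v 3) = y3 at *
  clear_value t s
  by_cases hne : t = 1
  · subst hne
    left
    constructor
    · linear_combination a1 + e0
    · linear_combination (1/2) * a2 + (1/2) * a3 + (1/2) * e2 + (1/2) * e3
  · right
    have f1 : y1 * t = 1 + t := by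
      have : (t - 1) * (y1 * t - (1 + t)) = 0 := by
        linear_combination (-1) * a0 + e0 - e1 + t^2 * a1
      linear_combination (mul_eq_zero.1 this).resolve_left (sub_ne_zero.2 hne)
    have f0 : y0 = -t := by linear_combination a0 - e0 - f1
    have f2 : y2 * (1 + t) = t := by linear_combination t * a2 - e2
    have f3 : y3 * (1 + t) = t := by linear_combination t * a3 - e3
    have f4 : t^2 * (s + t) = 0 := by
      linear_combination t^2 * e4 + t^2 * f0 - s * y2 * y3 * (y1 * t + 1 + t) * f1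
        - s * (y3 * (1 + t)) * f2 - s * t * f3
    have f5 : s = -t := by
      linear_combination (mul_eq_zero.1 f4).resolve_left (pow_ne_zero 2 t0)
    have g0 : x0 = 1 + t := by linear_combination e0 + f1
    have g1 : 1 - x0 = -t := by linear_combination (-1) * g0
    refine ⟨?_, ?_, ?_, ?_⟩
    · rw [g1, eq_div_iff (neg_ne_zero.2 t0)]
      linear_combination (-t) * a1 + f1
    · rw [eq_div_iff x00]
      linear_combination x2 * g0 + (1 + t) * a2 - f2
    · rw [eq_div_iff x00]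
      linear_combination x3 * g0 + (1 + t) * a3 - f3
    · obtain ⟨k, rfl⟩ : ∃ k, m = k + 1 := ⟨m - 1, by omega⟩
      rw [g1, Nat.add_sub_cancel]
      rw [f5, pow_succ] at e5
      have : t * ((-t)^k + 1) = 0 := by linear_combination e5
      linear_combination (mul_eq_zero.1 this).resolve_left t0

lemma wedge_zero {M : Type} [AddCommGroup M] (p q n : M) (k : ℕ) (hn : n = k • q)
    (h2 : n + n = 0) :
    wedge p q + wedge (-q) (n + p - q) + wedge (-p) (n + q - p) + wedge (-p) (n + q - p) = 0 := by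
  have a1 := ExteriorAlgebra.ι_sq_zero (R := ℤ) p
  have a2 := ExteriorAlgebra.ι_sq_zero (R := ℤ) q
  have a3 := ExteriorAlgebra.ι_add_mul_swap (R := ℤ) p q
  have a4 : ExteriorAlgebra.ι ℤ n + ExteriorAlgebra.ι ℤ n = 0 := by rw [← map_add, h2, map_zero]
  have a5 : ExteriorAlgebra.ι ℤ q * ExteriorAlgebra.ι ℤ n = 0 := by
    rw [hn, map_nsmul, mul_smul_comm, a2, smul_zero]
  simp only [wedge, map_neg, map_add, map_sub]
  generalize ExteriorAlgebra.ι ℤ p = P at *
  generalize ExteriorAlgebra.ι ℤ q = Q at *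
  generalize ExteriorAlgebra.ι ℤ n = N at *
  calc _ = -(P * Q + Q * P) - Q * N + Q * Q - P * (N + N) + (P * P + P * P) := by noncomm_ring
    _ = 0 := by rw [a1, a2, a3, a4, a5]; simp

lemma four_mem {F : Type} [Field F] (x0 x1 x2 x3 : Symb F) (k : ℕ) (h1 : x1.1 = 1 / (1 - x0.1))
    (h2 : x2.1 = 1 / x0.1) (h3 : x3.1 = 1 / x0.1) (hk : (1 - x0.1) ^ k = -1) :
    FreeAbelianGroup.of x0 + FreeAbelianGroup.of x1 + FreeAbelianGroup.of x2
      + FreeAbelianGroup.of x3 ∈ blochG F ∧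
    FreeAbelianGroup.of x0 + FreeAbelianGroup.of x1 + FreeAbelianGroup.of x2
      + FreeAbelianGroup.of x3 ∈ blochRel F := by
  have z0 := x0.2.1
  have z1 : 1 - x0.1 ≠ 0 := sub_ne_zero.2 x0.2.2.symm
  constructor
  · rw [blochG, wedgeKer, AddMonoidHom.mem_ker, map_add, map_add, map_add,
      FreeAbelianGroup.lift_apply_of, FreeAbelianGroup.lift_apply_of,
      FreeAbelianGroup.lift_apply_of, FreeAbelianGroup.lift_apply_of]
    set n : Additive Fˣ := Additive.ofMul (-1) with hn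
    have e1 : (unitPair x1).1 = -(unitPair x0).2 := by
      apply Additive.toMul.injective; apply Units.ext
      simp [unitPair, h1]
    have e2 : (unitPair x1).2 = n + (unitPair x0).1 - (unitPair x0).2 := by
      apply Additive.toMul.injective; apply Units.ext
      simp [unitPair, h1, hn]; field_simp; ring
    have e3 : ∀ x : Symb F, x.1 = 1 / x0.1 → (unitPair x).1 = -(unitPair x0).1 := by
      intro x hx
      apply Additive.toMul.injective; apply Units.ext
      simp [unitPair, hx]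
    have e4 : ∀ x : Symb F, x.1 = 1 / x0.1 →
        (unitPair x).2 = n + (unitPair x0).2 - (unitPair x0).1 := by
      intro x hx
      apply Additive.toMul.injective; apply Units.ext
      simp [unitPair, hx, hn]; field_simp
    rw [e1, e2, e3 _ h2, e3 _ h3, e4 _ h2, e4 _ h3]
    refine wedge_zero _ _ n k ?_ ?_
    · apply Additive.toMul.injective; apply Units.ext
      simp [unitPair, hn, hk]
    · apply Additive.toMul.injective; apply Units.ext
      simp [hn]
  · let a : Symb F := ⟨1 - x0.1, z1, fun h => z0 (by linear_combination (-1) * h)⟩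
    have r1 : FreeAbelianGroup.of x0 + FreeAbelianGroup.of x2 ∈ blochRel F :=
      AddSubgroup.subset_closure (Or.inl (Or.inr ⟨x0, x2, h2, rfl⟩))
    have r2 : FreeAbelianGroup.of x0 + FreeAbelianGroup.of x3 ∈ blochRel F :=
      AddSubgroup.subset_closure (Or.inl (Or.inr ⟨x0, x3, h3, rfl⟩))
    have r3 : FreeAbelianGroup.of a + FreeAbelianGroup.of x1 ∈ blochRel F :=
      AddSubgroup.subset_closure (Or.inl (Or.inr ⟨a, x1, h1, rfl⟩))
    have r4 : FreeAbelianGroup.of x0 + FreeAbelianGroup.of a ∈ blochRel F :=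
      AddSubgroup.subset_closure (Or.inl (Or.inl ⟨x0, a, rfl, rfl⟩))
    have r5 := add_mem (sub_mem (add_mem r1 r3) r4) r2
    have e : FreeAbelianGroup.of x0 + FreeAbelianGroup.of x1 + FreeAbelianGroup.of x2
        + FreeAbelianGroup.of x3 = FreeAbelianGroup.of x0 + FreeAbelianGroup.of x2
        + (FreeAbelianGroup.of a + FreeAbelianGroup.of x1)
        - (FreeAbelianGroup.of x0 + FreeAbelianGroup.of a)
        + (FreeAbelianGroup.of x0 + FreeAbelianGroup.of x3) := by abel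
    rw [e]; exact r5

lemma famA_torsion {m : ℕ} (hm : 1 ≤ m) : AllTorsion (famA m) := by
  intro u v h
  have key : nahmXi h ∈ blochG (solField u) ∧ nahmXi h ∈ blochRel (solField u) := by
    rcases sol_eqs hm h with ⟨h1, h2⟩ | ⟨h1, h2, h3, h4⟩
    · have p1 := pair_mem (solSymb h 0) (solSymb h 1) (Subtype.ext h1)
      have p2 := pair_mem (solSymb h 2) (solSymb h 3) (Subtype.ext h2)
      have e : nahmXi h = (FreeAbelianGroup.of (solSymb h 0) + FreeAbelianGroup.of (solSymb h 1))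
          + (FreeAbelianGroup.of (solSymb h 2) + FreeAbelianGroup.of (solSymb h 3)) := by
        rw [nahmXi, Fin.sum_univ_four]; abel
      rw [e]; exact ⟨add_mem p1.1 p2.1, add_mem p1.2 p2.2⟩
    · rw [nahmXi, Fin.sum_univ_four]
      refine four_mem _ _ _ _ (m - 1) (Subtype.ext ?_) (Subtype.ext ?_) (Subtype.ext ?_)
        (Subtype.ext ?_)
      · simpa [solSymb] using h1
      · simpa [solSymb] using h2
      · simpa [solSymb] using h3
      · simpa [solSymb] using h4
  refine ⟨key.1, ?_⟩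
  rw [(QuotientAddGroup.eq_zero_iff _).2]
  · exact IsOfFinAddOrder.zero
  · rw [AddSubgroup.mem_addSubgroupOf]
    exact key.2

lemma famA_solution (m : ℕ) : ∃ u v : Fin 4 → ℂ, IsNahmSolution (famA m) u v := by
  have h1 := uu_pos 0
  have h2 := uu_lt 0
  have h3 := log_uu 0
  have l4 : Real.log 4 = 2 * Real.log 2 := by
    rw [show (4:ℝ) = 2^2 by norm_num, Real.log_pow]; norm_num
  rw [l4] at h3
  have h4 : ((Real.log (uu 0) : ℝ) : ℂ) = 2 * Real.log (1 - uu 0) - 2 * Real.log 2 := by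
    exact_mod_cast (by linarith : Real.log (uu 0) = 2 * Real.log (1 - uu 0) - 2 * Real.log 2)
  have e1 : exp (Real.log (uu 0)) = uu 0 := by rw [← ofReal_exp, Real.exp_log h1]
  have e2 : exp (Real.log (1 - uu 0)) = 1 - uu 0 := by
    rw [← ofReal_exp, Real.exp_log h2]; push_cast; rfl
  have e3 : exp (-(Real.log 2 : ℂ)) = 1/2 := by
    rw [exp_neg, ← ofReal_exp, Real.exp_log two_pos]; norm_num
  generalize ((Real.log (uu 0) : ℝ) : ℂ) = a at *
  generalize ((Real.log (1 - uu 0) : ℝ) : ℂ) = b at *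
  generalize ((Real.log 2 : ℝ) : ℂ) = c at *
  refine ⟨![b, a, -c, -c], ![a, b, -c, -c], fun i => ?_, fun i => ?_⟩
  · fin_cases i <;> simp [e1, e2, e3] <;> norm_num
  · fin_cases i <;> simp [Fin.sum_univ_four, famA, h4] <;> ring

lemma nahmSum_eq (m : ℕ) (B : Fin 4 → ℚ) (C : ℚ) (τ : ℍ) :
    nahmSum (famA m) B C τ = fC m (fun i => (B i : ℝ)) C τ := by
  refine tsum_congr fun n => ?_
  simp only [cterm, cq, Fin.prod_univ_four]
  congr 3
  simp [Fin.sum_univ_four, famA, expo, QF]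
  ring

theorem famA_not_modular {m : ℕ} (hm : m % 7 = 2 ∨ m % 7 = 3) (B : Fin 4 → ℚ) (C : ℚ) :
    ¬ IsModularFunction (nahmSum (famA m) B C) := by
  have hm2 : 2 ≤ m := by omega
  have hmq : (2:ℚ) ≤ m := by exact_mod_cast hm2
  have hmr : (2:ℝ) ≤ m := by exact_mod_cast hm2
  rintro ⟨Γ, hΓ, hinv⟩
  obtain ⟨n, hn, -, hmem⟩ := Subgroup.exists_pow_mem_of_index_ne_zero hΓ.index_ne_zero
    (ModularGroup.S * ModularGroup.T * ModularGroup.S⁻¹)
  rw [conj_pow] at hmem
  obtain ⟨h1, h2, h3, h4⟩ := coeffs_zero (lam := m) (by linarith) (fun i => (B i : ℝ)) C (h := n)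
    (by exact_mod_cast hn)
    (fun z hz => by
      have := hinv _ hmem (ModularGroup.S • (⟨z, hz⟩ : ℍ))
      rw [mul_smul, mul_smul, inv_smul_smul, ← zpow_natCast, UpperHalfPlane.modular_T_zpow_smul,
        nahmSum_eq, nahmSum_eq, UpperHalfPlane.modular_S_smul, UpperHalfPlane.modular_S_smul] at this
      simp only [UpperHalfPlane.coe_vadd, inv_neg] at this
      simpa only [Int.cast_natCast, add_comm] using this)
  obtain ⟨μ, hμ⟩ : ∃ μ : ℚ, μ = 1 / (2 * m) := ⟨_, rfl⟩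
  have m0 : mu (m:ℝ) = (μ:ℝ) := by simp [mu, hμ]
  have hμ1 : μ * (2 * m) = 1 := by rw [hμ]; field_simp
  have hμ2 : 0 < μ := by rw [hμ]; positivity
  have hμ3 : μ ≤ 1/4 := by nlinarith
  have k0 : (kap fun i => (B i : ℝ)) = ((kap B : ℚ) : ℝ) := by simp [kap]
  have s0 : (ss fun i => (B i : ℝ)) = ((ss B : ℚ) : ℝ) := by simp [ss]
  have d0 : (dd fun i => (B i : ℝ)) = ((dd B : ℚ) : ℝ) := by simp [dd]
  simp only [c1, c2, c3, c4, L1, L2, L3, L4, cast_mom, m0] at h1 h2 h3 h4
  simp only [k0, s0, d0] at h1 h2 h3 h4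
  have q0 : ∀ r s d w c : ℚ, pa0 (r:ℝ) s d w c = (pa0 r s d w c : ℚ) := by intros; simp [pa0]
  have q1 : ∀ r k s w : ℚ, pa1 (r:ℝ) k s w = (pa1 r k s w : ℚ) := by intros; simp [pa1]
  have q2 : ∀ s d : ℚ, pv0 (s:ℝ) d = (pv0 s d : ℚ) := by intros; simp [pv0]
  have q3 : ∀ k s d : ℚ, pv1 (k:ℝ) s d = (pv1 k s d : ℚ) := by intros; simp [pv1]
  have q4 : ∀ s : ℚ, pv2 (s:ℝ) = (pv2 s : ℚ) := by intros; simp [pv2]
  have q5 : ∀ s d : ℚ, pg0 (s:ℝ) d = (pg0 s d : ℚ) := by intros; simp [pg0]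
  have q6 : ∀ k s d : ℚ, pg1 (k:ℝ) s d = (pg1 k s d : ℚ) := by intros; simp [pg1]
  have q7 : ∀ s d : ℚ, pg2 (s:ℝ) d = (pg2 s d : ℚ) := by intros; simp [pg2]
  have q8 : ∀ k s d : ℚ, pg3 (k:ℝ) s d = (pg3 k s d : ℚ) := by intros; simp [pg3]
  have q9 : ∀ s : ℚ, pg4 (s:ℝ) = (pg4 s : ℚ) := by intros; simp [pg4]
  simp only [q0, q1, q2, q3, q4, q5, q6, q7, q8, q9] at h1 h2 h3 h4
  set k := kap B
  set s := ss B
  set d := dd B
  set a0 := pa0 μ s d (B 1) C
  set a1 := pa1 μ k s (B 1)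
  set al := μ - 1/2 with hal
  have r1 := rat_tau (x := L1 a0 a1 al (mA k)) (y := L1 a0 a1 al (mB k))
    (by simp only [L1, hal]; push_cast; linear_combination h1)
  have r2 := rat_tau (x := L2 a0 a1 al (pv0 s d) (pv1 k s d) (pv2 s) (mA k))
    (y := L2 a0 a1 al (pv0 s d) (pv1 k s d) (pv2 s) (mB k))
    (by simp only [L2, hal]; push_cast; linear_combination h2)
  have r3 := rat_tau (x := L3 a0 a1 al (pv0 s d) (pv1 k s d) (pv2 s) (mA k))
    (y := L3 a0 a1 al (pv0 s d) (pv1 k s d) (pv2 s) (mB k))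
    (by simp only [L3, hal]; push_cast; linear_combination h3)
  have r4 := rat_tau (x := L4 a0 a1 al (pv0 s d) (pv1 k s d) (pv2 s) (pg0 s d) (pg1 k s d) (pg2 s d)
    (pg3 k s d) (pg4 s) (mA k)) (y := L4 a0 a1 al (pv0 s d) (pv1 k s d) (pv2 s) (pg0 s d)
    (pg1 k s d) (pg2 s d) (pg3 k s d) (pg4 s) (mB k))
    (by simp only [L4, hal]; push_cast; linear_combination h4)
  refine no_rational k s d a0 a1 al ?_ ?_ (fun t => no_root m hm t al ?_)
    r1.1 r1.2 r2.1 r2.2 r3.1 r3.2 r4.1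
  · have : al < 0 := by linarith
    nlinarith
  · nlinarith
  · rw [hal]; linear_combination hμ1

end NahmFam
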