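import Pool.Agent.Lib.MP_5c0a0e_nt.Fam.Coef

/-! The resultant along the family has no rational root in two classes modulo seven. -/

namespace NahmFam

open NahmCE

def RH {K : Type} [CommRing K] (a b x y : K) : K := (((((((-711048375:K) * a^(0:ℕ) * b^(19:ℕ) * x^(4:ℕ) * y^(8:ℕ) + (-10038330000:K) * a^(0:ℕ) * b^(19:ℕ) * x^(6:ℕ) * y^(6:ℕ)) + ((27477468000:K) * a^(0:ℕ) * b^(19:ℕ) * x^(8:ℕ) * y^(4:ℕ) + (444048480000:K) * a^(0:ℕ) * b^(19:ℕ) * x^(10:ℕ) * y^(2:ℕ) + (-1391351904000:K) * a^(0:ℕ) * b^(19:ℕ) * x^(12:ℕ) * y^(0:ℕ))) + (((477750150:K) * a^(1:ℕ) * b^(18:ℕ) * x^(2:ℕ) * y^(10:ℕ) + (-2215649700:K) * a^(1:ℕ) * b^(18:ℕ) * x^(4:ℕ) * y^(8:ℕ) + (-98054582400:K) * a^(1:ℕ) * b^(18:ℕ) * x^(6:ℕ) * y^(6:ℕ)) + ((-57505852800:K) * a^(1:ℕ)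 * b^(18:ℕ) * x^(8:ℕ) * y^(4:ℕ) + (1374345792000:K) * a^(1:ℕ) * b^(18:ℕ) * x^(10:ℕ) * y^(2:ℕ) + (1776193920000:K) * a^(1:ℕ) * b^(18:ℕ) * x^(12:ℕ) * y^(0:ℕ)))) + ((((-80249535:K) * a^(2:ℕ) * b^(17:ℕ) * x^(0:ℕ) * y^(12:ℕ) + (2967788160:K) * a^(2:ℕ) * b^(17:ℕ) * x^(2:ℕ) * y^(10:ℕ) + (-47257395840:K) * a^(2:ℕ) * b^(17:ℕ) * x^(4:ℕ) * y^(8:ℕ)) + ((-320003006400:K) * a^(2:ℕ) * b^(17:ℕ) * x^(6:ℕ) * y^(6:ℕ) + (6564170275200:K) * a^(2:ℕ) * b^(17:ℕ) * x^(8:ℕ) * y^(4:ℕ) + (-44674426368000:K) * a^(2:ℕ) * b^(17:ℕ) * x^(10:ℕ) * y^(2:ℕ))) + (((81758668032000:K) * a^(2:ℕ) * b^(17:ℕ) * x^(12:ℕ) * y^(0:ℕ) + (-294352380:K) * a^(3:ℕ) * b^(16:ℕ) * x^(0:ℕ) * y^(12:ℕ) + (25177327200:K) * a^(3:ℕ) * b^(16:ℕ) * x^(2:ℕ) * y^(10:ℕ)) + ((-270180463680:K)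 * a^(3:ℕ) * b^(16:ℕ) * x^(4:ℕ) * y^(8:ℕ) + (-3833056339200:K) * a^(3:ℕ) * b^(16:ℕ) * x^(6:ℕ) * y^(6:ℕ) + (52297680844800:K) * a^(3:ℕ) * b^(16:ℕ) * x^(8:ℕ) * y^(4:ℕ))))) + (((((-144253260288000:K) * a^(3:ℕ) * b^(16:ℕ) * x^(10:ℕ) * y^(2:ℕ) + (-38925287424000:K) * a^(3:ℕ) * b^(16:ℕ) * x^(12:ℕ) * y^(0:ℕ) + (-1526016240:K) * a^(4:ℕ) * b^(15:ℕ) * x^(0:ℕ) * y^(12:ℕ)) + ((11246364000:K) * a^(4:ℕ) * b^(15:ℕ) * x^(2:ℕ) * y^(10:ℕ) + (-254464254000:K) * a^(4:ℕ) * b^(15:ℕ) * x^(4:ℕ) * y^(8:ℕ) + (775178035200:K) * a^(4:ℕ) * b^(15:ℕ) * x^(6:ℕ) * y^(6:ℕ))) + (((632655360000:K) * a^(4:ℕ) * b^(15:ℕ) * x^(8:ℕ) * y^(4:ℕ) + (213668057088000:K) * a^(4:ℕ) * b^(15:ℕ) * x^(10:ℕ) * y^(2:ℕ) + (-306635175936000:K) * a^(4:ℕ) * b^(15:ℕ) * x^(12:ℕ) * y^(0:ℕ))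 + ((13148641296:K) * a^(5:ℕ) * b^(14:ℕ) * x^(0:ℕ) * y^(12:ℕ) + (-111360359520:K) * a^(5:ℕ) * b^(14:ℕ) * x^(2:ℕ) * y^(10:ℕ) + (-3533985961920:K) * a^(5:ℕ) * b^(14:ℕ) * x^(4:ℕ) * y^(8:ℕ)))) + ((((52763416243200:K) * a^(5:ℕ) * b^(14:ℕ) * x^(6:ℕ) * y^(6:ℕ) + (-214642383667200:K) * a^(5:ℕ) * b^(14:ℕ) * x^(8:ℕ) * y^(4:ℕ) + (608743600128000:K) * a^(5:ℕ) * b^(14:ℕ) * x^(10:ℕ) * y^(2:ℕ)) + ((97838751744000:K) * a^(5:ℕ) * b^(14:ℕ) * x^(12:ℕ) * y^(0:ℕ) + (-22123131600:K) * a^(6:ℕ) * b^(13:ℕ) * x^(0:ℕ) * y^(12:ℕ) + (13693518720:K) * a^(6:ℕ) * b^(13:ℕ) * x^(2:ℕ) * y^(10:ℕ))) + (((558874097280:K) * a^(6:ℕ) * b^(13:ℕ) * x^(4:ℕ) * y^(8:ℕ) + (46899332812800:K) * a^(6:ℕ) * b^(13:ℕ) * x^(6:ℕ) * y^(6:ℕ) + (-226112145408000:K) * a^(6:ℕ) * b^(13:ℕ)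 * x^(8:ℕ) * y^(4:ℕ)) + ((-275833257984000:K) * a^(6:ℕ) * b^(13:ℕ) * x^(10:ℕ) * y^(2:ℕ) + (192643743744000:K) * a^(6:ℕ) * b^(13:ℕ) * x^(12:ℕ) * y^(0:ℕ) + (31795126400:K) * a^(7:ℕ) * b^(12:ℕ) * x^(0:ℕ) * y^(12:ℕ)))))) + ((((((-1413296847360:K) * a^(7:ℕ) * b^(12:ℕ) * x^(2:ℕ) * y^(10:ℕ) + (30817143152640:K) * a^(7:ℕ) * b^(12:ℕ) * x^(4:ℕ) * y^(8:ℕ)) + ((-190794872217600:K) * a^(7:ℕ) * b^(12:ℕ) * x^(6:ℕ) * y^(6:ℕ) + (160022465740800:K) * a^(7:ℕ) * b^(12:ℕ) * x^(8:ℕ) * y^(4:ℕ) + (-430531117056000:K) * a^(7:ℕ) * b^(12:ℕ) * x^(10:ℕ) * y^(2:ℕ))) + (((-32883682560:K) * a^(8:ℕ) * b^(11:ℕ) * x^(0:ℕ) * y^(12:ℕ) + (2094512532480:K) * a^(8:ℕ) * b^(11:ℕ) * x^(2:ℕ) * y^(10:ℕ) + (-21087171901440:K) * a^(8:ℕ) * b^(11:ℕ) * x^(4:ℕ) * y^(8:ℕ)) +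 ((-18761269248000:K) * a^(8:ℕ) * b^(11:ℕ) * x^(6:ℕ) * y^(6:ℕ) + (477387177984000:K) * a^(8:ℕ) * b^(11:ℕ) * x^(8:ℕ) * y^(4:ℕ) + (-12135038976000:K) * a^(8:ℕ) * b^(11:ℕ) * x^(10:ℕ) * y^(2:ℕ)))) + ((((-52697945088:K) * a^(9:ℕ) * b^(10:ℕ) * x^(0:ℕ) * y^(12:ℕ) + (-125665136640:K) * a^(9:ℕ) * b^(10:ℕ) * x^(2:ℕ) * y^(10:ℕ) + (-4636760924160:K) * a^(9:ℕ) * b^(10:ℕ) * x^(4:ℕ) * y^(8:ℕ)) + ((181743575040000:K) * a^(9:ℕ) * b^(10:ℕ) * x^(6:ℕ) * y^(6:ℕ) + (-907739136000:K) * a^(9:ℕ) * b^(10:ℕ) * x^(8:ℕ) * y^(4:ℕ) + (47027112960:K) * a^(10:ℕ) * b^(9:ℕ) * x^(0:ℕ) * y^(12:ℕ))) + (((394607738880:K) * a^(10:ℕ) * b^(9:ℕ) * x^(2:ℕ) * y^(10:ℕ) + (26500163420160:K) * a^(10:ℕ) * b^(9:ℕ) * x^(4:ℕ) * y^(8:ℕ) + (-43361265254400:K) * a^(10:ℕ) * b^(9:ℕ)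 * x^(6:ℕ) * y^(6:ℕ)) + ((-180104999731200:K) * a^(10:ℕ) * b^(9:ℕ) * x^(8:ℕ) * y^(4:ℕ) + (-12661800960:K) * a^(11:ℕ) * b^(8:ℕ) * x^(0:ℕ) * y^(12:ℕ) + (2632107294720:K) * a^(11:ℕ) * b^(8:ℕ) * x^(2:ℕ) * y^(10:ℕ))))) + (((((-13434751549440:K) * a^(11:ℕ) * b^(8:ℕ) * x^(4:ℕ) * y^(8:ℕ) + (-57827406643200:K) * a^(11:ℕ) * b^(8:ℕ) * x^(6:ℕ) * y^(6:ℕ) + (-19416062361600:K) * a^(11:ℕ) * b^(8:ℕ) * x^(8:ℕ) * y^(4:ℕ)) + ((48319856640:K) * a^(12:ℕ) * b^(7:ℕ) * x^(0:ℕ) * y^(12:ℕ) + (640584253440:K) * a^(12:ℕ) * b^(7:ℕ) * x^(2:ℕ) * y^(10:ℕ) + (-14364724101120:K) * a^(12:ℕ) * b^(7:ℕ) * x^(4:ℕ) * y^(8:ℕ))) + (((11406724300800:K) * a^(12:ℕ) * b^(7:ℕ) * x^(6:ℕ) * y^(6:ℕ) + (173846233088:K) * a^(13:ℕ) * b^(6:ℕ) * x^(0:ℕ) * y^(12:ℕ) + (-1386788290560:K)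 * a^(13:ℕ) * b^(6:ℕ) * x^(2:ℕ) * y^(10:ℕ)) + ((-3617260830720:K) * a^(13:ℕ) * b^(6:ℕ) * x^(4:ℕ) * y^(8:ℕ) + (611529523200:K) * a^(13:ℕ) * b^(6:ℕ) * x^(6:ℕ) * y^(6:ℕ) + (9361489920:K) * a^(14:ℕ) * b^(5:ℕ) * x^(0:ℕ) * y^(12:ℕ)))) + ((((-1898785013760:K) * a^(14:ℕ) * b^(5:ℕ) * x^(2:ℕ) * y^(10:ℕ) + (-165976473600:K) * a^(14:ℕ) * b^(5:ℕ) * x^(4:ℕ) * y^(8:ℕ) + (-109730856960:K) * a^(15:ℕ) * b^(4:ℕ) * x^(0:ℕ) * y^(12:ℕ)) + ((-298120642560:K) * a^(15:ℕ) * b^(4:ℕ) * x^(2:ℕ) * y^(10:ℕ) + (1931980308480:K) * a^(15:ℕ) * b^(4:ℕ) * x^(4:ℕ) * y^(8:ℕ) + (-11497635840:K) * a^(16:ℕ) * b^(3:ℕ) * x^(0:ℕ) * y^(12:ℕ))) + (((439961518080:K) * a^(16:ℕ) * b^(3:ℕ) * x^(2:ℕ) * y^(10:ℕ) + (489223618560:K) * a^(16:ℕ) * b^(3:ℕ) * x^(4:ℕ) * y^(8:ℕ) + (23492296704:K)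 * a^(17:ℕ) * b^(2:ℕ) * x^(0:ℕ) * y^(12:ℕ)) + ((117776056320:K) * a^(17:ℕ) * b^(2:ℕ) * x^(2:ℕ) * y^(10:ℕ) + (1447034880:K) * a^(18:ℕ) * b^(1:ℕ) * x^(0:ℕ) * y^(12:ℕ) + (-1677721600:K) * a^(19:ℕ) * b^(0:ℕ) * x^(0:ℕ) * y^(12:ℕ)))))))

lemma RH_mod : ∀ a b m : ZMod 7, m = 2 ∨ m = 3 → RH a b (1 - m) (2 * m) = 0 → a = 0 ∧ b = 0 := by
  unfold RH
  decide +kernel

lemma RH_map {K K' : Type} [CommRing K] [CommRing K'] (f : K →+* K') (a b x y : K) :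
    f (RH a b x y) = RH (f a) (f b) (f x) (f y) := by
  simp only [RH, map_add, map_mul, map_pow, map_neg, map_ofNat]

lemma RH_hom (s d al y : ℚ) : RH (s * d) d (al * y) y = d^19 * y^12 * RH s 1 al 1 := by
  unfold RH
  ring

lemma no_root (m : ℕ) (hm : m % 7 = 2 ∨ m % 7 = 3) (s al : ℚ) (hal : al * (2 * m) = 1 - m) :
    RH s 1 al 1 ≠ 0 := by
  intro h
  have h1 : RH (s.num : ℚ) (s.den : ℚ) (1 - (m:ℚ)) (2 * (m:ℚ)) = 0 := by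
    rw [← Rat.mul_den_eq_num, ← hal, RH_hom, h, mul_zero]
  have h2 : RH s.num (s.den : ℤ) (1 - (m:ℤ)) (2 * (m:ℤ)) = 0 := by
    have := RH_map (Int.castRingHom ℚ) s.num (s.den : ℤ) (1 - (m:ℤ)) (2 * (m:ℤ))
    simp only [eq_intCast, Int.cast_natCast, Int.cast_sub, Int.cast_one, Int.cast_mul,
      Int.cast_ofNat] at this
    rw [h1] at this
    exact_mod_cast this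
  have h4 := RH_map (Int.castRingHom (ZMod 7)) s.num (s.den : ℤ) (1 - (m:ℤ)) (2 * (m:ℤ))
  rw [h2, map_zero] at h4
  simp only [eq_intCast, Int.cast_sub, Int.cast_one, Int.cast_mul, Int.cast_ofNat] at h4
  rw [Int.cast_natCast m] at h4
  have h5 : (m : ZMod 7) = 2 ∨ (m : ZMod 7) = 3 := by
    rw [← ZMod.natCast_mod m 7]
    rcases hm with h | h <;> rw [h]
    · left; rfl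
    · right; rfl
  exact seven_dvd s (RH_mod _ _ _ h5 h4.symm).1 (RH_mod _ _ _ h5 h4.symm).2

end NahmFam
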