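import Pool.Agent.Lib.MP_5c0a0e_nt.Fam.Coef

/-! The real Nahm sum of the family: summability, recursion, integral representation. -/

namespace NahmFam

open NahmCE MeasureTheory Filter Topology Set Complex

noncomputable def QF (lam : ℝ) (x : Fin 4 → ℝ) : ℝ :=
  x 0 * x 1 + x 2^2/2 + x 3^2/2 + lam * (x 0 - 2 * x 1 - x 2 - x 3)^2/2

noncomputable def expo (lam : ℝ) (B : Fin 4 → ℝ) (C : ℝ) (n : Fin 4 → ℕ) : ℝ :=
  QF lam (fun i => n i) + (B 0 * n 0 + B 1 * n 1 + B 2 * n 2 + B 3 * n 3) + C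

noncomputable def term (lam ε : ℝ) (B : Fin 4 → ℝ) (C : ℝ) (n : Fin 4 → ℕ) : ℝ :=
  Real.exp (-(ε * expo lam B C n)) / (qp ε (n 0) * qp ε (n 1) * qp ε (n 2) * qp ε (n 3))

noncomputable def FF (lam ε : ℝ) (B : Fin 4 → ℝ) (C : ℝ) : ℝ := ∑' n, term lam ε B C n

noncomputable def mu (lam : ℝ) : ℝ := 1 / (2 * lam)

variable {lam : ℝ}

lemma mu_pos (hl : 2/3 ≤ lam) : 0 < mu lam := by
  have : 0 < lam := by linarith
  unfold mu; positivity

lemma mu_le (hl : 2/3 ≤ lam) : mu lam ≤ 1 := by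
  unfold mu; rw [div_le_one (by linarith)]; linarith

lemma mu_mul (hl : 2/3 ≤ lam) : mu lam * lam = 1/2 := by
  have : lam ≠ 0 := by intro h; rw [h] at hl; norm_num at hl
  unfold mu; field_simp

lemma term_pos {ε : ℝ} (hε : 0 < ε) (B : Fin 4 → ℝ) (C : ℝ) (n : Fin 4 → ℕ) :
    0 < term lam ε B C n := by
  have := qp_pos hε
  exact div_pos (Real.exp_pos _) (mul_pos (mul_pos (mul_pos (this _) (this _)) (this _)) (this _))

lemma term_le (hl : 2/3 ≤ lam) {ε : ℝ} (hε : 0 < ε) (B : Fin 4 → ℝ) (C : ℝ) (n : Fin 4 → ℕ) :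
    term lam ε B C n ≤ NahmCE.term ε B C n := by
  have := qp_pos hε
  refine div_le_div_of_nonneg_right (Real.exp_le_exp.2 (neg_le_neg
    (mul_le_mul_of_nonneg_left ?_ hε.le)))
    (mul_pos (mul_pos (mul_pos (this _) (this _)) (this _)) (this _)).le
  simp only [expo, NahmCE.expo, QF, NahmCE.QF]
  nlinarith [mul_le_mul_of_nonneg_right hl (sq_nonneg ((n 0:ℝ) - 2 * n 1 - n 2 - n 3))]

lemma term_bound (hl : 2/3 ≤ lam) {δ : ℝ} (hδ : 0 < δ) (M : ℝ) (B : Fin 4 → ℝ) (C : ℝ) :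
    ∃ u : (Fin 4 → ℕ) → ℝ, Summable u ∧ ∀ ε, δ ≤ ε → ε ≤ M → ∀ n, term lam ε B C n ≤ u n := by
  obtain ⟨u, hu, h⟩ := NahmCE.term_bound hδ M B C
  exact ⟨u, hu, fun ε h1 h2 n => (term_le hl (hδ.trans_le h1) B C n).trans (h ε h1 h2 n)⟩

lemma term_summable (hl : 2/3 ≤ lam) {ε : ℝ} (hε : 0 < ε) (B : Fin 4 → ℝ) (C : ℝ) :
    Summable (term lam ε B C) := by
  obtain ⟨u, hu, h⟩ := term_bound hl hε ε B C
  exact Summable.of_nonneg_of_le (fun n => (term_pos hε B C n).le) (h ε le_rfl le_rfl) hu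

lemma FF_pos (hl : 2/3 ≤ lam) {ε : ℝ} (hε : 0 < ε) (B : Fin 4 → ℝ) (C : ℝ) :
    0 < FF lam ε B C :=
  (term_summable hl hε B C).tsum_pos (fun n => (term_pos hε B C n).le) 0 (term_pos hε B C 0)

noncomputable def AR (lam : ℝ) : Fin 4 → Fin 4 → ℝ :=
  ![![lam, 1 - 2 * lam, -lam, -lam], ![1 - 2 * lam, 4 * lam, 2 * lam, 2 * lam],
    ![-lam, 2 * lam, 1 + lam, lam], ![-lam, 2 * lam, lam, 1 + lam]]

lemma expo_shift1 (B : Fin 4 → ℝ) (C : ℝ) (i : Fin 4) (n : Fin 4 → ℕ) :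
    expo lam (B + Pi.single i 1) C n = expo lam B C n + n i := by
  fin_cases i <;> simp [expo] <;> ring

lemma expo_shift2 (B : Fin 4 → ℝ) (C : ℝ) (i : Fin 4) (n : Fin 4 → ℕ) :
    expo lam B C (n + Pi.single i 1)
      = expo lam (B + AR lam i) (C + AR lam i i / 2 + B i) n := by
  fin_cases i <;> simp [expo, QF, AR] <;> ring

theorem FF_rec (hl : 2/3 ≤ lam) {ε : ℝ} (hε : 0 < ε) (B : Fin 4 → ℝ) (C : ℝ) (i : Fin 4) :
    FF lam ε B C = FF lam ε (B + Pi.single i 1) C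
      + FF lam ε (B + AR lam i) (C + AR lam i i / 2 + B i) := by
  have h1 := (term_summable hl hε B C).hasSum.sub
    (term_summable hl hε (B + Pi.single i 1) C).hasSum
  have h2 := (term_summable hl hε (B + AR lam i) (C + AR lam i i / 2 + B i)).hasSum
  have hinj : Function.Injective (fun n : Fin 4 → ℕ => n + Pi.single i 1) := add_left_injective _
  have e : ∀ n, term lam ε B C n - term lam ε (B + Pi.single i 1) C n
      = term lam ε B C n * (1 - Real.exp (-(ε * n i))) := by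
    intro n
    simp only [term, expo_shift1]
    rw [mul_add, neg_add, Real.exp_add]; ring
  have := h1.unique ((hinj.hasSum_iff ?_).1 (h2.congr_fun ?_))
  · simp only [FF]; linarith
  · intro n hn
    have : n i = 0 := by
      by_contra h0
      refine hn ⟨n - Pi.single i 1, ?_⟩
      funext j
      by_cases hj : j = i
      · subst hj; simp; omega
      · simp [hj]
    rw [e, this]; simp
  · intro n
    have hq := fun k => (qp_pos hε k).ne'
    have h0 := (one_sub_pos' hε (n i)).ne'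
    simp only [Function.comp, e]
    simp only [term, expo_shift2]
    fin_cases i <;> simp [qp_succ'] at h0 ⊢ <;> field_simp

/-- The integrand, term by term. -/
noncomputable def Gt (lam ε : ℝ) (B : Fin 4 → ℝ) (C b y : ℝ) (p : (ℕ × ℕ) × ℕ × ℕ) : ℂ :=
  exp (mu lam * ε * (((B 1 - b)/2 : ℝ) + y * I)^2 - ε * C)
    * (Ht ε (exp (-(ε * ((B 0 + B 1/2 - b/2 : ℝ) + y * I)))) (exp (-(ε * (b - 2 * y * I)))) p.1
    * (Ot ε (exp (-(ε * ((B 2 - B 1/2 + 1/2 + b/2 : ℝ) - y * I)))) p.2.1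
    * Ot ε (exp (-(ε * ((B 3 - B 1/2 + 1/2 + b/2 : ℝ) - y * I)))) p.2.2))

lemma Gt_eq (ε : ℝ) (B : Fin 4 → ℝ) (C b y : ℝ) (p : (ℕ × ℕ) × ℕ × ℕ) :
    Gt lam ε B C b y p = ((term lam ε B C (eqv p) * Real.exp (ε * (lam * mm p^2 / 2
      - (B 1 - b) * mm p / 2 + mu lam * (B 1 - b)^2 / 4)) : ℝ) : ℂ)
      * exp (((-(mu lam * ε) : ℝ) : ℂ) * y^2
        + (I * ((mu lam * ε * (B 1 - b) - ε * mm p : ℝ) : ℂ)) * y + 0) := by
  simp only [Gt, Ht, Ot, term, ← exp_nat_mul, eqv, Equiv.coe_fn_mk, expo, QF, mm,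
    Matrix.cons_val_zero, Matrix.cons_val_one, Matrix.cons_val]
  push_cast
  simp only [div_eq_mul_inv, mul_inv]
  have : ∀ a1 a2 a3 a4 a5 a6 a7 a8 c1 c2 c3 q1 q2 q3 q4 : ℂ,
      a1 + a2 + a3 + a4 + a5 + a6 + a7 + a8 = c1 + c2 + c3 →
      exp a1 * (exp a2 * exp a3 * exp a4 * (q1 * q2) * (exp a5 * exp a6 * q3 * (exp a7 * exp a8 * q4)))
      = exp c1 * (q1 * q2 * q3 * q4) * exp c2 * exp c3 := by
    intro a1 a2 a3 a4 a5 a6 a7 a8 c1 c2 c3 q1 q2 q3 q4 h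
    have := congrArg exp h
    simp only [exp_add] at this
    linear_combination (q1 * q2 * q3 * q4) * this
  refine this _ _ _ _ _ _ _ _ _ _ _ _ _ _ _ ?_
  linear_combination (mu lam * ε * y^2) * I_sq

lemma Gt_norm {ε : ℝ} (B : Fin 4 → ℝ) (C b y : ℝ) (p : (ℕ × ℕ) × ℕ × ℕ) :
    ‖Gt lam ε B C b y p‖ = ‖Gt lam ε B C b 0 p‖ * Real.exp (-(mu lam * ε) * y^2) := by
  rw [Gt_eq, Gt_eq, norm_mul, norm_mul, norm_exp, norm_exp]
  simp [← ofReal_pow]

lemma Gt_zero {ε : ℝ} (hε : 0 < ε) (B : Fin 4 → ℝ) (C b : ℝ) (p : (ℕ × ℕ) × ℕ × ℕ) :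
    Gt lam ε B C b 0 p = (‖Gt lam ε B C b 0 p‖ : ℝ) := by
  have := term_pos (lam := lam) hε B C (eqv p)
  rw [Gt_eq, norm_mul, norm_real, Real.norm_eq_abs, abs_of_pos (by positivity)]
  simp

noncomputable def II (lam ε : ℝ) (B : Fin 4 → ℝ) (C b y : ℝ) : ℂ := ∑' p, Gt lam ε B C b y p

lemma Gt_aux {ε : ℝ} (hε : 0 < ε) {B : Fin 4 → ℝ} {b : ℝ} (h : Adm B b) (C y : ℝ) :
    (Summable fun p => ‖Gt lam ε B C b y p‖) ∧ II lam ε B C b y =
      exp (mu lam * ε * (((B 1 - b)/2 : ℝ) + y * I)^2 - ε * C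
        + (Lq ε ((B 0 + B 1/2 - b/2 : ℝ) + y * I) + Lq ε (b - 2 * y * I)
          - Lq ε (((B 0 + B 1/2 - b/2 : ℝ) + y * I) + (b - 2 * y * I)))
        + ((Lq ε ((B 2 - B 1/2 + 1/2 + b/2 : ℝ) - y * I)
          - Lq (2*ε) ((B 2 - B 1/2 + 1/2 + b/2 : ℝ) - y * I))
        + (Lq ε ((B 3 - B 1/2 + 1/2 + b/2 : ℝ) - y * I)
          - Lq (2*ε) ((B 3 - B 1/2 + 1/2 + b/2 : ℝ) - y * I)))) := by
  have r0 : 0 < (((B 0 + B 1/2 - b/2 : ℝ):ℂ) + y * I).re := by
    simpa only [add_re, ofReal_re, mul_re, I_re, ofReal_im, I_im, mul_zero, mul_one, sub_zero,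
      add_zero] using h.h0
  have r1 : 0 < ((b:ℂ) - 2 * y * I).re := by simpa using h.h1
  have r2 : 0 < (((B 2 - B 1/2 + 1/2 + b/2 : ℝ):ℂ) - y * I).re := by
    simpa only [sub_re, ofReal_re, mul_re, I_re, ofReal_im, I_im, mul_zero, mul_one, sub_zero,
      add_zero] using h.h2
  have r3 : 0 < (((B 3 - B 1/2 + 1/2 + b/2 : ℝ):ℂ) - y * I).re := by
    simpa only [sub_re, ofReal_re, mul_re, I_re, ofReal_im, I_im, mul_zero, mul_one, sub_zero,
      add_zero] using h.h3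
  have s1 := Ht_summable hε (norm_exp_lt hε r0) (norm_exp_lt hε r1)
  have s2 := Ot_summable hε (norm_exp_lt hε r2)
  have s3 := Ot_summable hε (norm_exp_lt hε r3)
  constructor
  · simp only [Gt]
    simp only [norm_mul (exp _)]
    exact (s1.mul_norm (s2.mul_norm s3)).mul_left _
  · rw [exp_add, exp_add, exp_add, ← H_exp hε r0 r1, ← O_exp hε r2, ← O_exp hε r3, O, O, H,
      tsum_mul_tsum_of_summable_norm s2 s3, mul_assoc (exp _),
      tsum_mul_tsum_of_summable_norm s1 (s2.mul_norm s3), ← tsum_mul_left]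
    rfl

lemma II_bound {ε : ℝ} (hε : 0 < ε) {B : Fin 4 → ℝ} {b : ℝ} (h : Adm B b) (C y : ℝ) :
    ‖II lam ε B C b y‖ ≤ ‖II lam ε B C b 0‖ * Real.exp (-(mu lam * ε) * y^2) := by
  refine (norm_tsum_le_tsum_norm (Gt_aux hε h C y).1).trans (le_of_eq ?_)
  simp only [Gt_norm B C b y]
  rw [tsum_mul_right]
  congr 1
  have : II lam ε B C b 0 = ((∑' p, ‖Gt lam ε B C b 0 p‖ : ℝ) : ℂ) := by
    rw [ofReal_tsum, II]; exact tsum_congr (Gt_zero hε B C b)
  rw [this, norm_real, Real.norm_eq_abs, abs_of_nonneg (tsum_nonneg fun _ => norm_nonneg _)]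

theorem FF_integral (hl : 2/3 ≤ lam) {ε : ℝ} (hε : 0 < ε) {B : Fin 4 → ℝ} {b : ℝ} (h : Adm B b)
    (C : ℝ) : Integrable (II lam ε B C b) ∧
    ∫ y, II lam ε B C b y = (Real.sqrt (Real.pi / (mu lam * ε)) * FF lam ε B C : ℝ) := by
  have hm := mu_pos hl
  have hb : ((-(mu lam * ε) : ℝ) : ℂ).re < 0 := by
    rw [ofReal_re]; exact neg_neg_of_pos (mul_pos hm hε)
  have i1 : ∀ p, Integrable fun y => Gt lam ε B C b y p := fun p => by
    simp only [Gt_eq]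
    exact (integrable_cexp_quadratic' hb _ _).const_mul _
  have i2 : Summable fun p => ∫ y, ‖Gt lam ε B C b y p‖ := by
    refine ((Gt_aux (lam := lam) hε h C 0).1.mul_right
      (∫ y : ℝ, Real.exp (-(mu lam * ε) * y^2))).congr fun p => ?_
    rw [← integral_const_mul]
    exact integral_congr_ae (Eventually.of_forall fun y => (Gt_norm B C b y p).symm)
  have hs := hasSum_integral_of_summable_integral_norm i1 i2
  have e : ∀ p, ∫ y, Gt lam ε B C b y p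
      = ((Real.sqrt (Real.pi / (mu lam * ε)) * term lam ε B C (eqv p) : ℝ) : ℂ) := by
    intro p
    simp only [Gt_eq]
    rw [integral_const_mul, integral_cexp_quadratic hb]
    have e1 : ((Real.pi:ℂ) / -((-(mu lam * ε) : ℝ) : ℂ)) ^ (1 / 2 : ℂ)
        = (Real.sqrt (Real.pi / (mu lam * ε)) : ℝ) := by
      rw [Real.sqrt_eq_rpow, ofReal_cpow (by positivity)]
      congr 1
      · push_cast; rw [neg_neg]
      · push_cast; rfl
    have e2 : (0:ℂ) - (I * ((mu lam * ε * (B 1 - b) - ε * mm p : ℝ) : ℂ))^2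
        / (4 * ((-(mu lam * ε) : ℝ) : ℂ)) = ((-(ε * (lam * mm p^2 / 2
          - (B 1 - b) * mm p / 2 + mu lam * (B 1 - b)^2 / 4)) : ℝ) : ℂ) := by
      have : (ε:ℂ) ≠ 0 := by exact_mod_cast hε.ne'
      have h1 : ((mu lam : ℝ) : ℂ) ≠ 0 := by exact_mod_cast hm.ne'
      have h2 : ((mu lam : ℝ) : ℂ) * lam = 1/2 := by
        have := congrArg (fun x : ℝ => (x:ℂ)) (mu_mul hl)
        simpa using this
      rw [mul_pow, I_sq, zero_sub, neg_eq_iff_eq_neg, div_eq_iff (by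
        push_cast; exact mul_ne_zero (by norm_num) (neg_ne_zero.2 (mul_ne_zero h1 this)))]
      push_cast
      linear_combination (2 * ε^2 * (mm p : ℂ)^2) * h2
    rw [e1, e2, ← ofReal_exp, Real.exp_neg]
    have := Real.exp_pos (ε * (lam * mm p^2 / 2
      - (B 1 - b) * mm p / 2 + mu lam * (B 1 - b)^2 / 4))
    norm_cast
    field_simp
  simp only [e] at hs
  have hs2 := hasSum_ofReal.2
    ((eqv.hasSum_iff.2 (term_summable hl hε B C).hasSum).mul_left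
      (Real.sqrt (Real.pi / (mu lam * ε))))
  have e3 : ∫ y, II lam ε B C b y
      = (Real.sqrt (Real.pi / (mu lam * ε)) * FF lam ε B C : ℝ) := hs.unique hs2
  refine ⟨?_, e3⟩
  by_contra hn
  rw [integral_undef hn] at e3
  have : 0 < Real.sqrt (Real.pi / (mu lam * ε)) * FF lam ε B C :=
    mul_pos (by positivity) (FF_pos hl hε B C)
  exact this.ne' (by exact_mod_cast e3.symm)

end NahmFam
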