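import Pool.Agent.Lib.MP_5c0a0e_nt.Fam.Root

/-! The case of a vanishing odd parameter. -/

namespace NahmFam

open NahmCE

lemma case_zero (s l D al : ℚ) (h1 : 0 < al^2) (h2 : al^2 < 1/4) (hR0 : RH s 1 al 1 ≠ 0)
    (o2 : (((3:ℚ) + (-48:ℚ) * l^(2:ℕ) + (36:ℚ) * al^(2:ℕ)) + ((20:ℚ) * s + (-24:ℚ) * s * D + (-8:ℚ) * s^(3:ℕ))) = 0)
    (o3 : ((l + (-1:ℚ) * al + (24:ℚ) * al * l^(2:ℕ)) + ((-20:ℚ) * al^(3:ℕ) + (-4:ℚ) * D * l + (-6:ℚ) * s * al + (-4:ℚ) * s^(2:ℕ) * l)) = 0)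
    (o4 : (((((255:ℚ) + (-7200:ℚ) * l^(2:ℕ) + (26880:ℚ) * l^(4:ℕ)) + ((-8640:ℚ) * al * l + (15480:ℚ) * al^(2:ℕ) + (-362880:ℚ) * al^(2:ℕ) * l^(2:ℕ) + (297360:ℚ) * al^(4:ℕ))) + (((720:ℚ) * D + (34560:ℚ) * D * al * l + (-1440:ℚ) * D^(2:ℕ)) + ((8216:ℚ) * s + (-44160:ℚ) * s * l^(2:ℕ) + (93600:ℚ) * s * al^(2:ℕ) + (-10320:ℚ) * s * D))) + ((((11520:ℚ) * s * D * l^(2:ℕ) + (-8640:ℚ) * s * D * al^(2:ℕ) + (1920:ℚ) * s * D^(2:ℕ)) + ((7040:ℚ) * s^(2:ℕ) + (34560:ℚ) * s^(2:ℕ) * al * l + (-7680:ℚ) * s^(2:ℕ) * D + (2880:ℚ) * s^(2:ℕ) * D^(2:ℕ))) + (((-3440:ℚ) * s^(3:ℕ) + (3840:ℚ) * s^(3:ℕ) * l^(2:ℕ) + (-2880:ℚ) * s^(3:ℕ) * al^(2:ℕ) + (3840:ℚ) * s^(3:ℕ) * D) + ((-3040:ℚ) * s^(4:ℕ) + (1920:ℚ) * s^(4:ℕ) * D + (384:ℚ)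 * s^(5:ℕ) + (320:ℚ) * s^(6:ℕ))))) = 0) : False := by
  have g : (((3:ℚ) * l + (-48:ℚ) * l^(3:ℕ) + (36:ℚ) * al^(2:ℕ) * l + (14:ℚ) * s * l) + (((6:ℚ) * s * al + (-144:ℚ) * s * al * l^(2:ℕ)) + ((120:ℚ) * s * al^(3:ℕ) + (36:ℚ) * s^(2:ℕ) * al + (16:ℚ) * s^(3:ℕ) * l))) = 0 := by
    linear_combination ((-6:ℚ) * s) * o3 + (l) * o2
  have h : (((((-135:ℚ) + (4320:ℚ) * l^(2:ℕ) + (-34560:ℚ) * l^(4:ℕ) + (-3240:ℚ) * al^(2:ℕ)) + ((51840:ℚ) * al^(2:ℕ) * l^(2:ℕ) + (-19440:ℚ) * al^(4:ℕ) + (-1080:ℚ) * s + (14400:ℚ) * s * l^(2:ℕ))) + (((46080:ℚ) * s * l^(4:ℕ) + (25920:ℚ) * s * al * l + (-414720:ℚ) * s * al * l^(3:ℕ) + (-10800:ℚ) * s * al^(2:ℕ)) + ((-69120:ℚ) * s * al^(2:ℕ) * l^(2:ℕ) + (311040:ℚ) * s * al^(3:ℕ) * l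 + (25920:ℚ) * s * al^(4:ℕ) + (-5940:ℚ) * s^(2:ℕ)))) + ((((42240:ℚ) * s^(2:ℕ) * l^(2:ℕ) + (92160:ℚ) * s^(2:ℕ) * l^(4:ℕ) + (120960:ℚ) * s^(2:ℕ) * al * l + (28800:ℚ) * s^(2:ℕ) * al^(2:ℕ)) + ((-2073600:ℚ) * s^(2:ℕ) * al^(2:ℕ) * l^(2:ℕ) + (1745280:ℚ) * s^(2:ℕ) * al^(4:ℕ) + (4256:ℚ) * s^(3:ℕ) + (-184320:ℚ) * s^(3:ℕ) * l^(2:ℕ))) + (((501120:ℚ) * s^(3:ℕ) * al^(2:ℕ) + (21120:ℚ) * s^(4:ℕ) + (-30720:ℚ) * s^(4:ℕ) * l^(2:ℕ) + (138240:ℚ) * s^(4:ℕ) * al * l) + ((23040:ℚ) * s^(4:ℕ) * al^(2:ℕ) + (12800:ℚ) * s^(5:ℕ) + (-3840:ℚ) * s^(6:ℕ) + (-4096:ℚ) * s^(7:ℕ))))) = 0 := by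
    linear_combination ((6:ℚ) * s^(2:ℕ)) * o4 + ((((-45:ℚ) + (720:ℚ) * l^(2:ℕ) + (-540:ℚ) * al^(2:ℕ) + (-60:ℚ) * s) + ((-960:ℚ) * s * l^(2:ℕ) + (8640:ℚ) * s * al * l + (720:ℚ) * s * al^(2:ℕ) + (-360:ℚ) * s * D)) + (((-2090:ℚ) * s^(2:ℕ) + (1440:ℚ) * s^(2:ℕ) * l^(2:ℕ) + (-1080:ℚ) * s^(2:ℕ) * al^(2:ℕ) + (480:ℚ) * s^(2:ℕ) * D) + ((-1200:ℚ) * s^(3:ℕ) + (720:ℚ) * s^(3:ℕ) * D + (800:ℚ) * s^(4:ℕ) + (240:ℚ) * s^(5:ℕ)))) * o2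
  have h0 : (((((-135:ℚ) + (2160:ℚ) * l^(2:ℕ) + (-3240:ℚ) * al^(2:ℕ) + (25920:ℚ) * al^(2:ℕ) * l^(2:ℕ)) + (((-19440:ℚ) * al^(4:ℕ) + (-1080:ℚ) * s) + ((7200:ℚ) * s * l^(2:ℕ) + (2160:ℚ) * s * al * l + (-10800:ℚ) * s * al^(2:ℕ)))) + ((((-34560:ℚ) * s * al^(2:ℕ) * l^(2:ℕ) + (-8640:ℚ) * s * al^(3:ℕ) * l) + ((25920:ℚ) * s * al^(4:ℕ) + (-5940:ℚ) * s^(2:ℕ) + (61440:ℚ) * s^(2:ℕ) * l^(2:ℕ))) + (((1440:ℚ) * s^(2:ℕ) * al * l + (-10080:ℚ) * s^(2:ℕ) * al^(2:ℕ)) + ((-1071360:ℚ) * s^(2:ℕ) * al^(2:ℕ) * l^(2:ℕ) + (11520:ℚ) * s^(2:ℕ) * al^(3:ℕ) * l + (967680:ℚ) * s^(2:ℕ) * al^(4:ℕ))))) + (((((4256:ℚ) * s^(3:ℕ) + (-168960:ℚ) * s^(3:ℕ) * l^(2:ℕ)) + ((-11520:ℚ) * s^(3:ℕ) * al * l + (250560:ℚ) * s^(3:ℕ) * al^(2:ℕ) + (414720:ℚ)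 * s^(3:ℕ) * al^(2:ℕ) * l^(2:ℕ))) + (((23040:ℚ) * s^(3:ℕ) * al^(3:ℕ) * l + (-345600:ℚ) * s^(3:ℕ) * al^(4:ℕ)) + ((21120:ℚ) * s^(4:ℕ) + (-15360:ℚ) * s^(4:ℕ) * l^(2:ℕ) + (23040:ℚ) * s^(4:ℕ) * al * l))) + ((((-115200:ℚ) * s^(4:ℕ) * al^(2:ℕ) + (829440:ℚ) * s^(4:ℕ) * al^(2:ℕ) * l^(2:ℕ)) + ((-691200:ℚ) * s^(4:ℕ) * al^(4:ℕ) + (12800:ℚ) * s^(5:ℕ) + (30720:ℚ) * s^(5:ℕ) * l^(2:ℕ))) + (((-46080:ℚ) * s^(5:ℕ) * al * l + (-207360:ℚ) * s^(5:ℕ) * al^(2:ℕ)) + ((-3840:ℚ) * s^(6:ℕ) + (-92160:ℚ) * s^(6:ℕ) * al * l + (-4096:ℚ) * s^(7:ℕ)))))) = 0 := by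
    linear_combination ((1:ℚ)) * h + (((-720:ℚ) * l + (960:ℚ) * s * l + (-6480:ℚ) * s * al) + ((1920:ℚ) * s^(2:ℕ) * l + (-2880:ℚ) * s^(2:ℕ) * al + (-5760:ℚ) * s^(3:ℕ) * al)) * g
  have hR : s^4 * RH s 1 al 1 = 0 := by
    unfold RH
    linear_combination (((((((309825:ℚ) * s^(2:ℕ) * al^(2:ℕ) * l^(2:ℕ) + (2187000:ℚ) * s^(2:ℕ) * al^(4:ℕ) * l^(2:ℕ) + (-13705200:ℚ) * s^(2:ℕ) * al^(6:ℕ) * l^(2:ℕ)) + ((-104085:ℚ) * s^(3:ℕ) * l^(2:ℕ) + (-42525:ℚ) * s^(3:ℕ) * al * l + (1010880:ℚ) * s^(3:ℕ) * al^(2:ℕ) * l^(2:ℕ) + (425250:ℚ) * s^(3:ℕ) * al^(3:ℕ) * l)) + (((6706800:ℚ) * s^(3:ℕ) * al^(4:ℕ) * l^(2:ℕ) + (1749600:ℚ) * s^(3:ℕ) * al^(5:ℕ) * l + (17884800:ℚ) * s^(3:ℕ) * al^(6:ℕ) * l^(2:ℕ)) + ((-11080800:ℚ) * s^(3:ℕ)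 * al^(7:ℕ) * l + (-121500:ℚ) * s^(4:ℕ) * l^(2:ℕ) + (-249885:ℚ) * s^(4:ℕ) * al * l + (-85050:ℚ) * s^(4:ℕ) * al^(2:ℕ)))) + ((((16690860:ℚ) * s^(4:ℕ) * al^(2:ℕ) * l^(2:ℕ) + (4838940:ℚ) * s^(4:ℕ) * al^(3:ℕ) * l + (4197825:ℚ) * s^(4:ℕ) * al^(4:ℕ)) + ((-196732800:ℚ) * s^(4:ℕ) * al^(4:ℕ) * l^(2:ℕ) + (-12247200:ℚ) * s^(4:ℕ) * al^(5:ℕ) * l + (-62159400:ℚ) * s^(4:ℕ) * al^(6:ℕ) + (577497600:ℚ) * s^(4:ℕ) * al^(6:ℕ) * l^(2:ℕ))) + (((12441600:ℚ) * s^(4:ℕ) * al^(7:ℕ) * l + (186915600:ℚ) * s^(4:ℕ) * al^(8:ℕ) + (-2468340:ℚ) * s^(5:ℕ) * l^(2:ℕ)) + ((-905040:ℚ) * s^(5:ℕ) * al * l + (-3735720:ℚ) * s^(5:ℕ) * al^(2:ℕ) + (60244560:ℚ) * s^(5:ℕ) * al^(2:ℕ) * l^(2:ℕ) + (36370080:ℚ) * s^(5:ℕ) * al^(3:ℕ) * l)))) + (((((69872220:ℚ)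 * s^(5:ℕ) * al^(4:ℕ) + (-458524800:ℚ) * s^(5:ℕ) * al^(4:ℕ) * l^(2:ℕ) + (-289267200:ℚ) * s^(5:ℕ) * al^(5:ℕ) * l) + ((-284763600:ℚ) * s^(5:ℕ) * al^(6:ℕ) + (-221875200:ℚ) * s^(5:ℕ) * al^(6:ℕ) * l^(2:ℕ) + (704505600:ℚ) * s^(5:ℕ) * al^(7:ℕ) * l + (-153187200:ℚ) * s^(5:ℕ) * al^(8:ℕ))) + (((594441:ℚ) * s^(6:ℕ) + (14122560:ℚ) * s^(6:ℕ) * l^(2:ℕ) + (3484620:ℚ) * s^(6:ℕ) * al * l) + ((-8290080:ℚ) * s^(6:ℕ) * al^(2:ℕ) + (-216911520:ℚ) * s^(6:ℕ) * al^(2:ℕ) * l^(2:ℕ) + (-40638240:ℚ) * s^(6:ℕ) * al^(3:ℕ) * l + (8330580:ℚ) * s^(6:ℕ) * al^(4:ℕ)))) + ((((334886400:ℚ) * s^(6:ℕ) * al^(4:ℕ) * l^(2:ℕ) + (66614400:ℚ) * s^(6:ℕ) * al^(5:ℕ) * l + (983577600:ℚ) * s^(6:ℕ) * al^(6:ℕ)) + ((-445824000:ℚ) * s^(6:ℕ) * al^(6:ℕ)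 * l^(2:ℕ) + (-267494400:ℚ) * s^(6:ℕ) * al^(7:ℕ) * l + (-3143059200:ℚ) * s^(6:ℕ) * al^(8:ℕ) + (-2575140:ℚ) * s^(7:ℕ))) + (((-22750080:ℚ) * s^(7:ℕ) * l^(2:ℕ) + (2028960:ℚ) * s^(7:ℕ) * al * l + (59351040:ℚ) * s^(7:ℕ) * al^(2:ℕ)) + ((172212480:ℚ) * s^(7:ℕ) * al^(2:ℕ) * l^(2:ℕ) + (-79041600:ℚ) * s^(7:ℕ) * al^(3:ℕ) * l + (-585241200:ℚ) * s^(7:ℕ) * al^(4:ℕ) + (-489369600:ℚ) * s^(7:ℕ) * al^(4:ℕ) * l^(2:ℕ)))))) + ((((((251942400:ℚ) * s^(7:ℕ) * al^(5:ℕ) * l + (4072377600:ℚ) * s^(7:ℕ) * al^(6:ℕ) + (-547430400:ℚ) * s^(7:ℕ) * al^(7:ℕ) * l) + ((1194393600:ℚ) * s^(7:ℕ) * al^(8:ℕ) + (5749540:ℚ) * s^(8:ℕ) + (29652480:ℚ) * s^(8:ℕ) * l^(2:ℕ) + (-23045760:ℚ) * s^(8:ℕ) * al * l)) + (((-178416000:ℚ) * s^(8:ℕ) * al^(2:ℕ)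 + (-308655360:ℚ) * s^(8:ℕ) * al^(2:ℕ) * l^(2:ℕ) + (462274560:ℚ) * s^(8:ℕ) * al^(3:ℕ) * l) + ((1986547680:ℚ) * s^(8:ℕ) * al^(4:ℕ) + (356659200:ℚ) * s^(8:ℕ) * al^(4:ℕ) * l^(2:ℕ) + (-2714342400:ℚ) * s^(8:ℕ) * al^(5:ℕ) * l + (-2109542400:ℚ) * s^(8:ℕ) * al^(6:ℕ)))) + ((((2370124800:ℚ) * s^(8:ℕ) * al^(8:ℕ) + (-11347200:ℚ) * s^(9:ℕ) + (-26818560:ℚ) * s^(9:ℕ) * l^(2:ℕ)) + ((83577600:ℚ) * s^(9:ℕ) * al * l + (276091200:ℚ) * s^(9:ℕ) * al^(2:ℕ) + (-67599360:ℚ) * s^(9:ℕ) * al^(2:ℕ) * l^(2:ℕ) + (-1148820480:ℚ) * s^(9:ℕ) * al^(3:ℕ) * l)) + (((-411989760:ℚ) * s^(9:ℕ) * al^(4:ℕ) + (729907200:ℚ) * s^(9:ℕ) * al^(4:ℕ) * l^(2:ℕ) + (1045094400:ℚ) * s^(9:ℕ) * al^(5:ℕ) * l) + ((-3441484800:ℚ) * s^(9:ℕ) * al^(6:ℕ) + (13486208:ℚ)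 * s^(10:ℕ) + (-15298560:ℚ) * s^(10:ℕ) * l^(2:ℕ) + (-90616320:ℚ) * s^(10:ℕ) * al * l)))) + (((((-78278400:ℚ) * s^(10:ℕ) * al^(2:ℕ) + (243025920:ℚ) * s^(10:ℕ) * al^(2:ℕ) * l^(2:ℕ) + (-112527360:ℚ) * s^(10:ℕ) * al^(3:ℕ) * l) + ((-678516480:ℚ) * s^(10:ℕ) * al^(4:ℕ) + (2189721600:ℚ) * s^(10:ℕ) * al^(5:ℕ) * l + (-74649600:ℚ) * s^(10:ℕ) * al^(6:ℕ) + (-9377280:ℚ) * s^(11:ℕ))) + (((12349440:ℚ) * s^(11:ℕ) * l^(2:ℕ) + (-30504960:ℚ) * s^(11:ℕ) * al * l + (28892160:ℚ) * s^(11:ℕ) * al^(2:ℕ)) + ((46448640:ℚ) * s^(11:ℕ) * al^(2:ℕ) * l^(2:ℕ) + (681062400:ℚ) * s^(11:ℕ) * al^(3:ℕ) * l + (154137600:ℚ) * s^(11:ℕ) * al^(4:ℕ) + (5890560:ℚ) * s^(12:ℕ)))) + ((((1720320:ℚ) * s^(12:ℕ) * l^(2:ℕ) + (37048320:ℚ) * s^(12:ℕ) *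 al * l + (74649600:ℚ) * s^(12:ℕ) * al^(2:ℕ)) + ((99532800:ℚ) * s^(12:ℕ) * al^(3:ℕ) * l + (-387348480:ℚ) * s^(12:ℕ) * al^(4:ℕ) + (6144000:ℚ) * s^(13:ℕ) + (-1228800:ℚ) * s^(13:ℕ) * l^(2:ℕ))) + (((2211840:ℚ) * s^(13:ℕ) * al * l + (-86446080:ℚ) * s^(13:ℕ) * al^(2:ℕ) + (-119439360:ℚ) * s^(13:ℕ) * al^(4:ℕ) + (-3764224:ℚ) * s^(14:ℕ)) + ((-3686400:ℚ) * s^(14:ℕ) * al * l + (-28753920:ℚ) * s^(14:ℕ) * al^(2:ℕ) + (-737280:ℚ) * s^(15:ℕ) + (409600:ℚ) * s^(16:ℕ))))))) * h0 + (((((((13942125:ℚ) * s^(2:ℕ) * al^(2:ℕ) * l + (265720500:ℚ) * s^(2:ℕ) * al^(4:ℕ) * l + (564246000:ℚ) * s^(2:ℕ) * al^(6:ℕ) * l + (-7400808000:ℚ) * s^(2:ℕ) * al^(8:ℕ) * l) + ((-4683825:ℚ) * s^(3:ℕ) * l + (-1913625:ℚ) * s^(3:ℕ) * al + (35757450:ℚ)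 * s^(3:ℕ) * al^(2:ℕ) * l + (-31711500:ℚ) * s^(3:ℕ) * al^(3:ℕ))) + (((952657200:ℚ) * s^(3:ℕ) * al^(4:ℕ) * l + (-446148000:ℚ) * s^(3:ℕ) * al^(5:ℕ) + (796068000:ℚ) * s^(3:ℕ) * al^(6:ℕ) * l + (-2256984000:ℚ) * s^(3:ℕ) * al^(7:ℕ)) + ((19525536000:ℚ) * s^(3:ℕ) * al^(8:ℕ) * l + (18685728000:ℚ) * s^(3:ℕ) * al^(9:ℕ) + (-21080250:ℚ) * s^(4:ℕ) * l + (-8255925:ℚ) * s^(4:ℕ) * al))) + ((((1308627900:ℚ) * s^(4:ℕ) * al^(2:ℕ) * l + (143467200:ℚ) * s^(4:ℕ) * al^(3:ℕ) + (-3677659200:ℚ) * s^(4:ℕ) * al^(4:ℕ) * l + (-579992400:ℚ) * s^(4:ℕ) * al^(5:ℕ)) + ((-148750992000:ℚ) * s^(4:ℕ) * al^(6:ℕ) * l + (-11652336000:ℚ) * s^(4:ℕ) * al^(7:ℕ) + (604871712000:ℚ) * s^(4:ℕ) * al^(8:ℕ) * l + (-50388480000:ℚ) * s^(4:ℕ) * al^(9:ℕ)))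 + (((-262529100:ℚ) * s^(5:ℕ) * l + (-77990850:ℚ) * s^(5:ℕ) * al + (6495730200:ℚ) * s^(5:ℕ) * al^(2:ℕ) * l + (325231200:ℚ) * s^(5:ℕ) * al^(3:ℕ)) + (((-48628382400:ℚ) * s^(5:ℕ) * al^(4:ℕ) * l + (-6707091600:ℚ) * s^(5:ℕ) * al^(5:ℕ)) + ((-88980768000:ℚ) * s^(5:ℕ) * al^(6:ℕ) * l + (347085648000:ℚ) * s^(5:ℕ) * al^(7:ℕ) + (-1053212544000:ℚ) * s^(5:ℕ) * al^(8:ℕ) * l))))) + (((((-1302052320000:ℚ) * s^(5:ℕ) * al^(9:ℕ) + (476123400:ℚ) * s^(6:ℕ) * l + (548734500:ℚ) * s^(6:ℕ) * al + (28198497600:ℚ) * s^(6:ℕ) * al^(2:ℕ) * l) + ((62920800:ℚ) * s^(6:ℕ) * al^(3:ℕ) + (-848795112000:ℚ) * s^(6:ℕ) * al^(4:ℕ) * l + (-102252844800:ℚ) * s^(6:ℕ) * al^(5:ℕ) + (5625075456000:ℚ) * s^(6:ℕ) * al^(6:ℕ) * l)) + (((983236320000:ℚ)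 * s^(6:ℕ) * al^(7:ℕ) + (-13053042432000:ℚ) * s^(6:ℕ) * al^(8:ℕ) * l + (2321633664000:ℚ) * s^(6:ℕ) * al^(9:ℕ) + (-1603857600:ℚ) * s^(7:ℕ) * l) + ((-538957800:ℚ) * s^(7:ℕ) * al + (23240563200:ℚ) * s^(7:ℕ) * al^(2:ℕ) * l + (-63934660800:ℚ) * s^(7:ℕ) * al^(3:ℕ) + (-800757964800:ℚ) * s^(7:ℕ) * al^(4:ℕ) * l))) + ((((1575120945600:ℚ) * s^(7:ℕ) * al^(5:ℕ) + (5746857984000:ℚ) * s^(7:ℕ) * al^(6:ℕ) * l + (-10017851904000:ℚ) * s^(7:ℕ) * al^(7:ℕ) + (10571876352000:ℚ) * s^(7:ℕ) * al^(8:ℕ) * l) + ((23551762176000:ℚ) * s^(7:ℕ) * al^(9:ℕ) + (24659548800:ℚ) * s^(8:ℕ) * l + (11811585600:ℚ) * s^(8:ℕ) * al + (-788708448000:ℚ) * s^(8:ℕ) * al^(2:ℕ) * l)) + (((-346381891200:ℚ) * s^(8:ℕ) * al^(3:ℕ) + (7412282265600:ℚ) *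 s^(8:ℕ) * al^(4:ℕ) * l + (4976745753600:ℚ) * s^(8:ℕ) * al^(5:ℕ) + (-14253926400000:ℚ) * s^(8:ℕ) * al^(6:ℕ) * l) + (((-25726305024000:ℚ) * s^(8:ℕ) * al^(7:ℕ) + (18012948480000:ℚ) * s^(8:ℕ) * al^(8:ℕ) * l) + ((-19262582784000:ℚ) * s^(8:ℕ) * al^(9:ℕ) + (-74878368000:ℚ) * s^(9:ℕ) * l + (-86819500800:ℚ) * s^(9:ℕ) * al)))))) + ((((((1477340121600:ℚ) * s^(9:ℕ) * al^(2:ℕ) * l + (2498278233600:ℚ) * s^(9:ℕ) * al^(3:ℕ) + (-6189173452800:ℚ) * s^(9:ℕ) * al^(4:ℕ) * l + (-21466207872000:ℚ) * s^(9:ℕ) * al^(5:ℕ)) + ((8040093696000:ℚ) * s^(9:ℕ) * al^(6:ℕ) * l + (34648363008000:ℚ) * s^(9:ℕ) * al^(7:ℕ) + (-7685922816000:ℚ) * s^(9:ℕ) * al^(8:ℕ) * l + (-32171489280000:ℚ) * s^(9:ℕ) * al^(9:ℕ))) + (((107225280000:ℚ) * s^(10:ℕ)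 * l + (209283667200:ℚ) * s^(10:ℕ) * al + (-1495820390400:ℚ) * s^(10:ℕ) * al^(2:ℕ) * l + (-3466778572800:ℚ) * s^(10:ℕ) * al^(3:ℕ)) + ((6696749260800:ℚ) * s^(10:ℕ) * al^(4:ℕ) * l + (4478851584000:ℚ) * s^(10:ℕ) * al^(5:ℕ) + (-6926819328000:ℚ) * s^(10:ℕ) * al^(6:ℕ) * l + (41294665728000:ℚ) * s^(10:ℕ) * al^(7:ℕ)))) + ((((-7703838720000:ℚ) * s^(10:ℕ) * al^(8:ℕ) * l + (13705666560000:ℚ) * s^(10:ℕ) * al^(9:ℕ) + (-124125081600:ℚ) * s^(11:ℕ) * l + (-175307788800:ℚ) * s^(11:ℕ) * al) + ((1323902361600:ℚ) * s^(11:ℕ) * al^(2:ℕ) * l + (-309154406400:ℚ) * s^(11:ℕ) * al^(3:ℕ) + (1717737062400:ℚ) * s^(11:ℕ) * al^(4:ℕ) * l + (19863263232000:ℚ) * s^(11:ℕ) * al^(5:ℕ))) + (((-21951627264000:ℚ) * s^(11:ℕ) * al^(6:ℕ) *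 l + (-22016655360000:ℚ) * s^(11:ℕ) * al^(7:ℕ) + (13651918848000:ℚ) * s^(11:ℕ) * al^(9:ℕ) + (52700160000:ℚ) * s^(12:ℕ) * l) + (((-16551014400:ℚ) * s^(12:ℕ) * al + (1379159654400:ℚ) * s^(12:ℕ) * al^(2:ℕ) * l) + ((2334464409600:ℚ) * s^(12:ℕ) * al^(3:ℕ) + (-14372005478400:ℚ) * s^(12:ℕ) * al^(4:ℕ) * l + (-5021628825600:ℚ) * s^(12:ℕ) * al^(5:ℕ)))))) + (((((12469469184000:ℚ) * s^(12:ℕ) * al^(6:ℕ) * l + (-20037943296000:ℚ) * s^(12:ℕ) * al^(7:ℕ) + (97420492800:ℚ) * s^(13:ℕ) * l + (92445696000:ℚ) * s^(13:ℕ) * al) + ((-1845050572800:ℚ) * s^(13:ℕ) * al^(2:ℕ) * l + (-1002936729600:ℚ) * s^(13:ℕ) * al^(3:ℕ) + (-110415052800:ℚ) * s^(13:ℕ) * al^(4:ℕ) * l + (-1684891238400:ℚ) * s^(13:ℕ) * al^(5:ℕ))) + (((12612796416000:ℚ)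 * s^(13:ℕ) * al^(6:ℕ) * l + (-429981696000:ℚ) * s^(13:ℕ) * al^(7:ℕ) + (-53720678400:ℚ) * s^(14:ℕ) * l + (-96307200000:ℚ) * s^(14:ℕ) * al) + (((-479703859200:ℚ) * s^(14:ℕ) * al^(2:ℕ) * l + (675643392000:ℚ) * s^(14:ℕ) * al^(3:ℕ)) + ((5067944755200:ℚ) * s^(14:ℕ) * al^(4:ℕ) * l + (654527692800:ℚ) * s^(14:ℕ) * al^(5:ℕ) + (-21371289600:ℚ) * s^(15:ℕ) * l)))) + ((((56453529600:ℚ) * s^(15:ℕ) * al + (396361728000:ℚ) * s^(15:ℕ) * al^(2:ℕ) * l + (464368435200:ℚ) * s^(15:ℕ) * al^(3:ℕ) + (802632499200:ℚ) * s^(15:ℕ) * al^(4:ℕ) * l) + ((-2575112601600:ℚ) * s^(15:ℕ) * al^(5:ℕ) + (11678515200:ℚ) * s^(16:ℕ) * l + (38869401600:ℚ) * s^(16:ℕ) * al + (48837427200:ℚ) * s^(16:ℕ) * al^(2:ℕ) * l)) + (((-555260313600:ℚ) * s^(16:ℕ)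 * al^(3:ℕ) + (-687970713600:ℚ) * s^(16:ℕ) * al^(5:ℕ) + (1494220800:ℚ) * s^(17:ℕ) * l + (-25008537600:ℚ) * s^(17:ℕ) * al) + (((-21233664000:ℚ) * s^(17:ℕ) * al^(2:ℕ) * l + (-165622579200:ℚ) * s^(17:ℕ) * al^(3:ℕ)) + ((-786432000:ℚ) * s^(18:ℕ) * l + (-4010803200:ℚ) * s^(18:ℕ) * al + (2359296000:ℚ) * s^(19:ℕ) * al))))))) * g
  rcases mul_eq_zero.1 hR with h | h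
  · have hs : s = 0 := pow_eq_zero_iff (by norm_num) |>.1 h
    subst hs
    have e : (D - 1/4)^2 = 4 * al^2 * (4 * al^2 - 1) := by
      linear_combination (-1/1440) * o4 + ((-6:ℚ) * al) * o3 + ((23/288:ℚ) + (-7/18:ℚ) * l^(2:ℕ) + (47/24:ℚ) * al^(2:ℕ)) * o2
    nlinarith [sq_nonneg (D - 1/4)]
  · exact hR0 h

end NahmFam
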